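import Mathlib
import Pool.Graph.R_seed8.Helper270.Tree
import Pool.Graph.R_seed8.Helper270.HNN

set_option autoImplicit false

/-!
# The Bass-Serre tree of an amalgamated product of two groups
-/

namespace Pool.Agent.H361.AM

open Monoid Monoid.PushoutI Pool.Agent.Helper270.Tree Pool.Agent.Helper270.HNN

variable {G : Bool → Type} {C : Type} [∀ i, Group (G i)] [Group C] {φ : ∀ i, C →* G i}

/-- Vertices of the Bass-Serre tree. -/
abbrev Vert (φ : ∀ i, C →* G i) : Type :=
  Σ i : Bool, PushoutI φ ⧸ (of i : G i →* PushoutI φ).range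

/-- The vertex given by the coset of `g`. -/
abbrev vt (i : Bool) (g : PushoutI φ) : Vert φ := ⟨i, (g : PushoutI φ ⧸ _)⟩

theorem smul_vt (i : Bool) (g h : PushoutI φ) : g • (vt i h : Vert φ) = vt i (g * h) := rfl

theorem vt_eq_iff {i : Bool} {g h : PushoutI φ} : (vt i g : Vert φ) = vt i h ↔
    ∃ x : G i, g * of i x = h := by
  constructor
  · intro e
    have e' : (g : PushoutI φ ⧸ (of i : G i →* PushoutI φ).range) = h := by
      simpa using e
    rw [QuotientGroup.eq] at e'
    obtain ⟨x, hx⟩ := e'
    exact ⟨x, by rw [hx]; group⟩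
  · rintro ⟨x, rfl⟩
    have : (g : PushoutI φ ⧸ (of i : G i →* PushoutI φ).range) =
        ((g * of i x : PushoutI φ) : PushoutI φ ⧸ _) := by
      rw [QuotientGroup.eq]
      exact ⟨x, by group⟩
    exact congrArg (Sigma.mk i) this

theorem exists_vt (v : Vert φ) : ∃ g, v = vt v.1 g := by
  obtain ⟨i, x⟩ := v
  obtain ⟨g, rfl⟩ := QuotientGroup.mk_surjective x
  exact ⟨g, rfl⟩

/-- The Bass-Serre tree. -/
def graph (φ : ∀ i, C →* G i) : SimpleGraph (Vert φ) where
  Adj x y := ∃ (i : Bool) (g : PushoutI φ), x = vt i g ∧ y = vt (!i) g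
  symm := ⟨fun x y h => by
    obtain ⟨i, g, h1, h2⟩ := h
    exact ⟨!i, g, h2, by rw [Bool.not_not]; exact h1⟩⟩
  loopless := ⟨fun x h => by
    obtain ⟨i, g, h1, h2⟩ := h
    have := congrArg Sigma.fst (h1.symm.trans h2)
    simp at this⟩

theorem adj_iff {x y : Vert φ} : (graph φ).Adj x y ↔
    ∃ (i : Bool) (g : PushoutI φ), x = vt i g ∧ y = vt (!i) g := Iff.rfl

theorem adj_vt (i : Bool) (g : PushoutI φ) : (graph φ).Adj (vt i g) (vt (!i) g) := ⟨i, g, rfl, rfl⟩

theorem fst_adj {x y : Vert φ} (h : (graph φ).Adj x y) : y.1 = !x.1 := by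
  obtain ⟨i, g, rfl, rfl⟩ := h
  rfl

/-- The product of a list of letters. -/
def pr (φ : ∀ i, C →* G i) (l : List (Σ i, G i)) : PushoutI φ :=
  (l.map (fun x => of x.1 x.2)).prod

/-- Remove the first letter if it is in `G i`. -/
def strip (i : Bool) : List (Σ i, G i) → List (Σ i, G i)
  | [] => []
  | ⟨j, x⟩ :: l => if j = i then l else ⟨j, x⟩ :: l

section

variable [∀ i, DecidableEq (G i)] (d : NormalWord.Transversal φ)

/-- The normal form of an element. -/
noncomputable def nw (g : PushoutI φ) : NormalWord d := NormalWord.equiv g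

theorem nw_prod (g : PushoutI φ) : (nw d g).prod = g :=
  NormalWord.equiv.symm_apply_apply g

theorem nw_of_prod (w : NormalWord d) : nw d w.prod = w :=
  NormalWord.equiv.apply_symm_apply w

theorem nw_of_mul (i : Bool) (x : G i) (g : PushoutI φ) : nw d (of i x * g) = x • nw d g := by
  change (of i x * g) • (NormalWord.empty : NormalWord d) =
    x • (g • (NormalWord.empty : NormalWord d))
  rw [mul_smul, NormalWord.of_smul_eq_smul]

omit [∀ i, DecidableEq (G i)] in
theorem strip_of_fstIdx {i : Bool} {w : CoprodI.Word G} (h : w.fstIdx ≠ some i) :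
    strip i w.toList = w.toList := by
  rcases hw : w.toList with _ | ⟨⟨j, x⟩, l⟩
  · rfl
  · have : j ≠ i := by
      rintro rfl
      apply h
      simp [CoprodI.Word.fstIdx, hw]
    simp [strip, this]

theorem strip_rcons {i : Bool} (p : CoprodI.Word.Pair G i) :
    strip i (CoprodI.Word.rcons p).toList = p.tail.toList := by
  unfold CoprodI.Word.rcons
  split_ifs with h
  · exact strip_of_fstIdx p.fstIdx_ne
  · simp [strip, CoprodI.Word.cons]

theorem strip_nwrcons {i : Bool} (p : NormalWord.Pair d i) :
    strip i (NormalWord.rcons i p).toList = p.tail.toList := by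
  have : (NormalWord.rcons i p).toWord = CoprodI.Word.rcons
      { p.toPair with head := (((d.compl i).equiv p.head).2 : G i) } := by
    simp [NormalWord.rcons, CoprodI.Word.equivPair_symm]
  rw [this]
  exact strip_rcons _

theorem strip_smul {i : Bool} (x : G i) (w : NormalWord d) :
    strip i (x • w).toList = strip i w.toList := by
  have h1 : w = NormalWord.rcons i (NormalWord.equivPair i w) :=
    ((NormalWord.equivPair i).symm_apply_apply w).symm
  have h2 : x • w = NormalWord.rcons i
      { NormalWord.equivPair i w with head := x * (NormalWord.equivPair i w).head } := rfl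
  rw [h2, strip_nwrcons]
  conv_rhs => rw [h1]
  rw [strip_nwrcons]

/-- The list of letters of the normal form attached to a coset. -/
noncomputable def nf (v : Vert φ) : List (Σ i, G i) := strip v.1 (nw d (v.2.out)⁻¹).toList

theorem nf_vt (i : Bool) (g : PushoutI φ) : nf d (vt i g) = strip i (nw d g⁻¹).toList := by
  have h : (vt i ((g : PushoutI φ ⧸ (of i : G i →* PushoutI φ).range)).out : Vert φ) = vt i g := by
    have := Quotient.out_eq (g : PushoutI φ ⧸ (of i : G i →* PushoutI φ).range)
    change (⟨i, _⟩ : Vert φ) = ⟨i, _⟩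
    congr 1
  obtain ⟨x, hx⟩ := vt_eq_iff.mp h
  rw [nf]
  have e : ((g : PushoutI φ ⧸ (of i : G i →* PushoutI φ).range)).out⁻¹ = of i x * g⁻¹ := by
    rw [eq_mul_inv_iff_mul_eq, inv_mul_eq_iff_eq_mul, hx]
  change strip i (nw d ((g : PushoutI φ ⧸ (of i : G i →* PushoutI φ).range)).out⁻¹).toList = _
  rw [e, nw_of_mul, strip_smul]

omit [∀ i, DecidableEq (G i)] in
theorem word_prod (w : CoprodI.Word G) : (ofCoprodI w.prod : PushoutI φ) = pr φ w.toList := by
  rw [CoprodI.Word.prod, map_list_prod, pr, List.map_map]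
  congr 1

theorem nw_decomp (g : PushoutI φ) : base φ (nw d g).head * pr φ (nw d g).toList = g := by
  have := nw_prod d g
  rw [NormalWord.prod, word_prod] at this
  exact this

theorem vt_pr_nf (v : Vert φ) : vt v.1 (pr φ (nf d v))⁻¹ = v := by
  obtain ⟨g, hg⟩ := exists_vt v
  obtain ⟨i, x⟩ := v
  simp only at hg
  rw [hg]
  clear hg x
  rw [nf_vt]
  have h := nw_decomp d g⁻¹
  apply vt_eq_iff.mpr
  rcases hw : (nw d g⁻¹).toList with _ | ⟨⟨j, x⟩, l⟩
  · rw [hw] at h
    refine ⟨(φ i (nw d g⁻¹).head)⁻¹, ?_⟩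
    simp only [strip, pr, List.map_nil, List.prod_nil, map_inv, of_apply_eq_base] at h ⊢
    rw [mul_one] at h
    rw [h]; simp
  · rw [hw] at h
    by_cases hj : j = i
    · subst hj
      simp only [strip, if_true]
      refine ⟨(φ j (nw d g⁻¹).head * x)⁻¹, ?_⟩
      rw [map_inv, map_mul, of_apply_eq_base]
      rw [pr, List.map_cons, List.prod_cons] at h
      have : g = (base φ (nw d g⁻¹).head * (of j x * pr φ l))⁻¹ := by
        rw [pr, h, inv_inv]
      conv_rhs => rw [this]
      group
    · simp only [strip, if_neg hj]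
      refine ⟨(φ i (nw d g⁻¹).head)⁻¹, ?_⟩
      rw [map_inv, of_apply_eq_base, ← mul_inv_rev, h, inv_inv]

/-- The parent of a vertex. -/
noncomputable def par (v : Vert φ) : Vert φ :=
  match nf d v with
  | [] => vt true 1
  | ⟨j, _⟩ :: l => vt j (pr φ l)⁻¹

theorem isTree (hφ : ∀ i, Function.Injective (φ i)) : (graph φ).IsTree := by
  classical
  obtain ⟨d⟩ := NormalWord.transversal_nonempty φ hφ
  -- tails
  have htail : ∀ (w : NormalWord d) (j : Bool) (x : G j) (l : List (Σ i, G i)),
      w.toList = ⟨j, x⟩ :: l → (nw d (pr φ l)).toList = l ∧ strip j l = l := by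
    intro w j x l hw
    have hc := w.chain_ne
    rw [hw] at hc
    let w' : NormalWord d :=
      { toList := l
        ne_one := fun y hy => w.ne_one y (by rw [hw]; exact List.mem_cons_of_mem _ hy)
        chain_ne := hc.tail
        head := 1
        normalized := fun i g hg => w.normalized i g (by rw [hw]; exact List.mem_cons_of_mem _ hg) }
    have h1 : w'.prod = pr φ l := by
      rw [NormalWord.prod, word_prod]
      simp [w']
    refine ⟨by rw [← h1, nw_of_prod], ?_⟩
    rcases l with _ | ⟨⟨k, y⟩, l⟩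
    · rfl
    · have := (List.isChain_cons_cons.mp hc).1
      simp only [strip]
      rw [if_neg (Ne.symm this)]
  have hne : ∀ v : Vert φ, v ≠ vt true 1 → nf d v = [] → v = vt false 1 := by
    intro v hv h
    have h1 := vt_pr_nf d v
    rw [h] at h1
    simp only [pr, List.map_nil, List.prod_nil, inv_one] at h1
    obtain ⟨i, x⟩ := v
    cases i
    · exact h1.symm
    · exact absurd h1.symm hv
  have hnf1 : nf d (vt true (1 : PushoutI φ)) = [] := by
    rw [nf_vt, inv_one]
    have : (1 : PushoutI φ) = (NormalWord.empty : NormalWord d).prod := by simp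
    rw [this, nw_of_prod]; rfl
  have hne' : ∀ v : Vert φ, nf d v ≠ [] → v ≠ vt true 1 := by
    rintro v hv rfl
    exact hv hnf1
  -- the shape of the normal form
  have hform : ∀ (i : Bool) (g : PushoutI φ) (j : Bool) (x : G j) (l : List (Σ i, G i)),
      nf d (vt i g) = ⟨j, x⟩ :: l → j = !i ∧ nf d (vt j (pr φ l)⁻¹) = l := by
    intro i g j x l h
    rw [nf_vt] at h
    have key : ∀ w : NormalWord d, w.toList = ⟨j, x⟩ :: l → nf d (vt j (pr φ l)⁻¹) = l := by
      intro w hw
      obtain ⟨h1, h2⟩ := htail w j x l hw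
      rw [nf_vt, inv_inv, h1, h2]
    rcases hw : (nw d g⁻¹).toList with _ | ⟨⟨k, y⟩, l0⟩
    · rw [hw] at h
      simp [strip] at h
    · rw [hw] at h
      have hc := (nw d g⁻¹).chain_ne
      rw [hw] at hc
      by_cases hk : k = i
      · subst hk
        simp only [strip, if_true] at h
        subst h
        have h3 := (List.isChain_cons_cons.mp hc).1
        refine ⟨?_, key _ (htail _ _ _ _ hw).1⟩
        simp only at h3
        revert h3
        cases j <;> cases k <;> simp
      · simp only [strip, if_neg hk] at h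
        obtain ⟨h4, h5⟩ := List.cons_eq_cons.mp h
        have h6 : k = j := congrArg Sigma.fst h4
        refine ⟨?_, key _ (by rw [hw, h])⟩
        subst h6
        revert hk
        cases k <;> cases i <;> simp
  refine isTree_of_parent (par := par d) (o := vt true 1)
    (fun v => 2 * (nf d v).length + (if v.1 = true then 0 else 1)) ?_ ?_ ?_
  · intro v hv
    rcases hn : nf d v with _ | ⟨⟨j, x⟩, l⟩
    · have h1 := hne v hv hn
      have h2 : par d v = vt true 1 := by rw [par, hn]
      rw [h2, h1]
      exact adj_vt false 1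
    · have h2 : par d v = vt j (pr φ l)⁻¹ := by rw [par, hn]
      have h1 := vt_pr_nf d v
      obtain ⟨g, hg⟩ := exists_vt v
      rw [hg] at hn
      obtain ⟨h3, _⟩ := hform _ _ _ _ _ hn
      rw [← hg] at hn
      rw [hn] at h1
      rw [h2, ← h1]
      have h4 : (pr φ (⟨j, x⟩ :: l))⁻¹ = (pr φ l)⁻¹ * of j x⁻¹ := by
        rw [pr, pr, List.map_cons, List.prod_cons, mul_inv_rev, map_inv]
      have h5 : (vt j (pr φ l)⁻¹ : Vert φ) = vt j (pr φ (⟨j, x⟩ :: l))⁻¹ :=
        vt_eq_iff.mpr ⟨x⁻¹, h4.symm⟩
      rw [h5]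
      subst h3
      exact adj_vt _ _
  · intro v hv
    change 2 * (nf d (par d v)).length + (if (par d v).1 = true then 0 else 1) <
      2 * (nf d v).length + (if v.1 = true then 0 else 1)
    rcases hn : nf d v with _ | ⟨⟨j, x⟩, l⟩
    · have h1 := hne v hv hn
      have h2 : par d v = vt true 1 := by rw [par, hn]
      rw [h2, hnf1, h1]
      simp
    · have h2 : par d v = vt j (pr φ l)⁻¹ := by rw [par, hn]
      obtain ⟨g, hg⟩ := exists_vt v
      rw [hg] at hn
      obtain ⟨_, h3⟩ := hform _ _ _ _ _ hn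
      rw [h2, h3, List.length_cons]
      split_ifs <;> omega
  · intro u v huv
    obtain ⟨i, g, rfl, rfl⟩ := huv
    rcases hw : (nw d g⁻¹).toList with _ | ⟨⟨j, x⟩, l⟩
    · have hnf : ∀ k, nf d (vt k g) = [] := by
        intro k
        rw [nf_vt, hw]; rfl
      have h1 : ∀ k, (vt k g : Vert φ) = vt k 1 := by
        intro k
        have := vt_pr_nf d (vt k g)
        rw [hnf] at this
        rw [← this]
        simp [pr]
      have h2 : ∀ k, par d (vt k g) = vt true 1 := by
        intro k
        rw [par, hnf]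
      rw [h2, h2]
      cases i
      · left
        refine ⟨fun h => ?_, (h1 true).symm⟩
        have := congrArg Sigma.fst h
        simp at this
      · right
        refine ⟨fun h => ?_, (h1 true).symm⟩
        have := congrArg Sigma.fst h
        simp at this
    · have hcase : ∀ k, j ≠ k → nf d (vt k g) = ⟨j, x⟩ :: l := by
        intro k hk
        rw [nf_vt, hw]
        simp only [strip, if_neg hk]
      have hcase2 : nf d (vt j g) = l := by
        rw [nf_vt, hw]
        simp only [strip, if_true]
      have hcase3 : (vt j (pr φ l)⁻¹ : Vert φ) = vt j g := by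
        have := vt_pr_nf d (vt j g)
        rwa [hcase2] at this
      by_cases hj : j = i
      · right
        have h1 := hcase (!i) (by rw [hj]; cases i <;> simp)
        refine ⟨hne' _ (by rw [h1]; simp), ?_⟩
        have h2 : par d (vt (!i) g) = vt j (pr φ l)⁻¹ := by rw [par, h1]
        rw [h2, hcase3, hj]
      · left
        have h1 := hcase i hj
        refine ⟨hne' _ (by rw [h1]; simp), ?_⟩
        have h2 : par d (vt i g) = vt j (pr φ l)⁻¹ := by rw [par, h1]
        have h3 : j = !i := by revert hj; cases j <;> cases i <;> simp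
        rw [h2, hcase3, h3]

omit [∀ i, DecidableEq (G i)] in
theorem treeAct (hφ : ∀ i, Function.Injective (φ i)) : TreeAct (PushoutI φ) (graph φ) where
  isTree := by classical exact isTree hφ
  adj := by
    rintro g v w ⟨i, k, rfl, rfl⟩
    rw [smul_vt, smul_vt]
    exact adj_vt _ _
  noInv := by
    rintro g v w ⟨i, k, rfl, rfl⟩ ⟨h1, _⟩
    rw [smul_vt] at h1
    have := congrArg Sigma.fst h1
    simp at this

omit [∀ i, DecidableEq (G i)] in
theorem fix_vt {i : Bool} {g h : PushoutI φ} : g • (vt i h : Vert φ) = vt i h ↔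
    ∃ x : G i, g = h * of i x * h⁻¹ := by
  rw [smul_vt, eq_comm, vt_eq_iff]
  constructor
  · rintro ⟨x, hx⟩
    exact ⟨x, by rw [hx]; group⟩
  · rintro ⟨x, rfl⟩
    exact ⟨x, by group⟩

end

end Pool.Agent.H361.AM
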