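import Mathlib
import Pool.Agent.H361.AM.Tree

set_option autoImplicit false

/-!
# Fixed points in the tree of an amalgamated product
-/

namespace Pool.Agent.H361.AM

open Monoid Monoid.PushoutI Pool.Agent.Helper270.Tree Pool.Agent.Helper270.HNN

section General

variable {Γ V : Type} [Group Γ] [MulAction Γ V] {T : SimpleGraph V}

/-- An element of finite order has a fixed vertex. -/
theorem fix_of_finite (h : TreeAct Γ T) {g : Γ} {n : ℕ} (hn : 0 < n) (hg : g ^ n = 1) :
    ∃ v : V, g • v = v := by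
  by_contra hcon
  push Not at hcon
  obtain ⟨L, l, hax⟩ := h.exists_axis hcon
  have h1 := hax.smul_zpow (n : ℤ) 0
  rw [zpow_natCast, hg, one_smul] at h1
  have h2 := hax.line.injective h.isTree h1
  have h3 := hax.pos
  have : (n : ℤ) * l > 0 := by positivity
  omega

end General

variable {G : Bool → Type} {C : Type} [∀ i, Group (G i)] [Group C] {φ : ∀ i, C →* G i}

theorem vt_true_of_ne {v : Vert φ} : v.1 = true ∨ v.1 = false := by
  cases v.1 <;> simp

/-- The stabiliser of an edge. -/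
theorem fix_edge (hφ : ∀ i, Function.Injective (φ i)) {g u : PushoutI φ} {i : Bool}
    (h1 : u • (vt i g : Vert φ) = vt i g) (h2 : u • (vt (!i) g : Vert φ) = vt (!i) g) :
    ∃ c : C, u = g * base φ c * g⁻¹ := by
  obtain ⟨x, hx⟩ := fix_vt.mp h1
  obtain ⟨y, hy⟩ := fix_vt.mp h2
  have h3 : (of i x : PushoutI φ) = of (!i) y := by
    have := hx.symm.trans hy
    simpa using this
  have h4 : (of i x : PushoutI φ) ∈ (base φ).range := by
    rw [← inf_of_range_eq_base_range hφ (i := i) (j := !i) (by cases i <;> simp)]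
    exact ⟨⟨x, rfl⟩, ⟨y, h3.symm⟩⟩
  obtain ⟨c, hc⟩ := h4
  exact ⟨c, by rw [hx, hc]⟩

/-- The base group is malnormal in the factor `i`. -/
def Mal (φ : ∀ i, C →* G i) (i : Bool) : Prop :=
  ∀ (h : G i) (c c' : C), c ≠ 1 → h * φ i c * h⁻¹ = φ i c' → h ∈ (φ i).range

theorem mal_two (hφ : ∀ i, Function.Injective (φ i)) {i : Bool} (hm : Mal φ (!i)) {u : PushoutI φ}
    (hu : u ≠ 1) {g h : PushoutI φ} (hw : (vt (!i) g : Vert φ) = vt (!i) h)
    (h1 : u • (vt i g : Vert φ) = vt i g) (h2 : u • (vt i h : Vert φ) = vt i h)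
    (h3 : u • (vt (!i) g : Vert φ) = vt (!i) g) : (vt i g : Vert φ) = vt i h := by
  obtain ⟨x, rfl⟩ := vt_eq_iff.mp hw
  obtain ⟨c, hc⟩ := fix_edge hφ h1 h3
  obtain ⟨c', hc'⟩ := fix_edge hφ h2 (by rw [← hw]; exact h3)
  have hc1 : c' ≠ 1 := by
    rintro rfl
    apply hu
    rw [hc']; simp
  have h4 : (of (!i) (φ (!i) c) : PushoutI φ) = of (!i) (x * φ (!i) c' * x⁻¹) := by
    rw [map_mul, map_mul, map_inv, of_apply_eq_base, of_apply_eq_base]
    have := hc.symm.trans hc'
    have e : base φ c = g⁻¹ * (g * base φ c * g⁻¹) * g := by group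
    rw [e, this]; group
  have h5 := of_injective hφ (!i) h4
  obtain ⟨c'', hc''⟩ := hm x c' c hc1 h5.symm
  rw [← hc'', of_apply_eq_base]
  exact vt_eq_iff.mpr ⟨φ i c'', by rw [of_apply_eq_base]⟩

/-- A nontrivial element fixes at most one vertex of type `i`. -/
theorem unique_fix (hφ : ∀ i, Function.Injective (φ i)) {i : Bool} (hm : Mal φ (!i))
    {u : PushoutI φ} (hu : u ≠ 1) {x y : Vert φ} (hx : x.1 = i) (hy : y.1 = i)
    (h1 : u • x = x) (h2 : u • y = y) : x = y := by
  by_contra hne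
  have hT := treeAct hφ
  obtain ⟨w, hw1, hw2, hw3⟩ := exists_next hT hne
  have hwt : w.1 = !i := by rw [fst_adj hw1, hx]
  have hwy : w ≠ y := by
    rintro rfl
    rw [hy] at hwt
    revert hwt; cases i <;> simp
  obtain ⟨w', hw1', hw2', hw3'⟩ := exists_next hT hwy
  have huw := hw3 u h1 h2
  have huw' := hw3' u huw h2
  have hne' : x ≠ w' := by
    rintro rfl
    omega
  apply hne'
  obtain ⟨j, g, rfl, rfl⟩ := hw1
  obtain ⟨k, h, hk, rfl⟩ := hw1'
  simp only at hx hwt
  subst hx
  have hk' : k = !j := by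
    have := congrArg Sigma.fst hk
    exact this.symm
  subst hk'
  have e : (vt (!!j) h : Vert φ) = vt j h := by rw [Bool.not_not]
  rw [e] at huw' ⊢
  exact mal_two hφ hm hu hk h1 huw' huw

/-- A nontrivial element which fixes vertices of both types fixes an edge. -/
theorem adj_fix (hφ : ∀ i, Function.Injective (φ i)) {i : Bool} (hm : Mal φ (!i))
    {u : PushoutI φ} (hu : u ≠ 1) {x y : Vert φ} (hx : x.1 = i) (hy : y.1 = !i)
    (h1 : u • x = x) (h2 : u • y = y) : (graph φ).Adj x y := by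
  have hT := treeAct hφ
  have hne : x ≠ y := by
    rintro rfl
    rw [hx] at hy
    revert hy; cases i <;> simp
  obtain ⟨w, hw1, hw2, hw3⟩ := exists_next hT hne
  by_cases hwy : w = y
  · rw [← hwy]; exact hw1
  exfalso
  obtain ⟨w', hw1', hw2', hw3'⟩ := exists_next hT hwy
  have huw := hw3 u h1 h2
  have huw' := hw3' u huw h2
  have hwt : w'.1 = i := by rw [fst_adj hw1', fst_adj hw1, hx, Bool.not_not]
  have := unique_fix hφ hm hu hx hwt h1 huw'
  subst this
  omega

end Pool.Agent.H361.AM
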