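import Mathlib
import Pool.Agent.H361.AM.Mal

set_option autoImplicit false

/-!
# Free products of two groups
-/

namespace Pool.Agent.H361.AM

open Monoid Monoid.PushoutI Pool.Agent.Helper270.Tree Pool.Agent.Helper270.HNN

/-- The family with the two members `A` (index `true`) and `B` (index `false`). -/
def fam (A B : Type) : Bool → Type
  | true => A
  | false => B

instance fam.group (A B : Type) [Group A] [Group B] : ∀ i, Group (fam A B i)
  | true => inferInstanceAs (Group A)
  | false => inferInstanceAs (Group B)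

variable {A B : Type} [Group A] [Group B]

/-- The maps from the trivial group. -/
def tr (A B : Type) [Group A] [Group B] : ∀ i, Unit →* fam A B i := fun _ => 1

theorem tr_inj : ∀ i, Function.Injective (tr A B i) := fun _ _ _ _ => rfl

theorem tr_mal (i : Bool) : Mal (tr A B) i := fun _ _ _ hc => absurd rfl hc

/-- The free product as an amalgamated product over the trivial group. -/
abbrev FPr (A B : Type) [Group A] [Group B] : Type := PushoutI (tr A B)

/-- The first factor. -/
def ia : A →* FPr A B := PushoutI.of (φ := tr A B) true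
/-- The second factor. -/
def ib : B →* FPr A B := PushoutI.of (φ := tr A B) false

theorem ia_inj : Function.Injective (ia : A →* FPr A B) := of_injective tr_inj true
theorem ib_inj : Function.Injective (ib : B →* FPr A B) := of_injective tr_inj false

/-- The universal property. -/
def fpl {M : Type} [Group M] (f : A →* M) (g : B →* M) : FPr A B →* M :=
  PushoutI.lift (fun i => match i with
    | true => f
    | false => g) 1 (by
      intro i
      apply MonoidHom.ext
      intro x
      exact (map_one _))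

@[simp] theorem fpl_ia {M : Type} [Group M] (f : A →* M) (g : B →* M) (a : A) :
    fpl f g (ia a) = f a := by
  unfold fpl ia
  exact PushoutI.lift_of (φ := tr A B) _ _ _ (i := true) a

@[simp] theorem fpl_ib {M : Type} [Group M] (f : A →* M) (g : B →* M) (b : B) :
    fpl f g (ib b) = g b := by
  unfold fpl ib
  exact PushoutI.lift_of (φ := tr A B) _ _ _ (i := false) b

theorem fp_ext {M : Type} [Group M] {f g : FPr A B →* M} (h1 : ∀ a, f (ia a) = g (ia a))
    (h2 : ∀ b, f (ib b) = g (ib b)) : f = g := by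
  apply PushoutI.hom_ext_nonempty
  intro i
  apply MonoidHom.ext
  intro x
  cases i
  · exact h2 x
  · exact h1 x

/-- The retraction to the first factor. -/
def ra : FPr A B →* A := fpl (MonoidHom.id A) 1
/-- The retraction to the second factor. -/
def rb : FPr A B →* B := fpl 1 (MonoidHom.id B)

@[simp] theorem ra_ia (a : A) : (ra (ia a : FPr A B)) = a := by simp [ra]
@[simp] theorem ra_ib (b : B) : (ra (ib b : FPr A B)) = 1 := by simp [ra]
@[simp] theorem rb_ia (a : A) : (rb (ia a : FPr A B)) = 1 := by simp [rb]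
@[simp] theorem rb_ib (b : B) : (rb (ib b : FPr A B)) = b := by simp [rb]

theorem fp_fix {g : FPr A B} {i : Bool} {h : FPr A B}
    (hg : g • (vt i h : Vert (tr A B)) = vt i h) :
    (i = true ∧ ∃ a : A, g = h * ia a * h⁻¹) ∨ (i = false ∧ ∃ b : B, g = h * ib b * h⁻¹) := by
  obtain ⟨x, hx⟩ := fix_vt.mp hg
  cases i
  · exact Or.inr ⟨rfl, x, hx⟩
  · exact Or.inl ⟨rfl, x, hx⟩

theorem fp_nofix {g : FPr A B} (h1 : ra g ≠ 1) (h2 : rb g ≠ 1) (v : Vert (tr A B)) :
    g • v ≠ v := by
  intro hv
  obtain ⟨h, hh⟩ := exists_vt v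
  rw [hh] at hv
  rcases fp_fix hv with ⟨_, a, ha⟩ | ⟨_, b, hb⟩
  · apply h2; rw [ha]; simp
  · apply h1; rw [hb]; simp

theorem fp_inf {g : FPr A B} (h1 : ra g ≠ 1) (h2 : rb g ≠ 1) {n : ℕ} (hn : 0 < n) :
    g ^ n ≠ 1 := by
  intro h
  obtain ⟨v, hv⟩ := fix_of_finite (treeAct tr_inj) hn h
  exact fp_nofix h1 h2 v hv

/-- Elements of finite order are conjugate into one of the factors. -/
theorem fp_tors {g : FPr A B} {n : ℕ} (hn : 0 < n) (hg : g ^ n = 1) :
    (∃ h a, g = h * ia a * h⁻¹) ∨ (∃ h b, g = h * ib b * h⁻¹) := by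
  obtain ⟨v, hv⟩ := fix_of_finite (treeAct tr_inj) hn hg
  obtain ⟨h, hh⟩ := exists_vt v
  rw [hh] at hv
  rcases fp_fix hv with ⟨_, a, ha⟩ | ⟨_, b, hb⟩
  · exact Or.inl ⟨h, a, ha⟩
  · exact Or.inr ⟨h, b, hb⟩

theorem fp_edge {g h : FPr A B} {i : Bool} (h1 : g • (vt i h : Vert (tr A B)) = vt i h)
    (h2 : g • (vt (!i) h : Vert (tr A B)) = vt (!i) h) : g = 1 := by
  obtain ⟨c, hc⟩ := fix_edge tr_inj h1 h2
  rw [hc]
  have : (base (tr A B) c : FPr A B) = 1 := map_one _
  rw [this]; simp

theorem fp_adj {g : FPr A B} {x y : Vert (tr A B)} (hxy : (graph (tr A B)).Adj x y)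
    (h1 : g • x = x) (h2 : g • y = y) : g = 1 := by
  obtain ⟨i, h, rfl, rfl⟩ := hxy
  exact fp_edge h1 h2

/-- A nontrivial element fixes at most one vertex. -/
theorem fp_uniq {g : FPr A B} (hg : g ≠ 1) {x y : Vert (tr A B)}
    (h1 : g • x = x) (h2 : g • y = y) : x = y := by
  by_contra hne
  obtain ⟨w, hw1, _, hw3⟩ := exists_next (treeAct tr_inj) hne
  exact hg (fp_adj hw1 h1 (hw3 g h1 h2))

theorem ia_vt (y : A) : (ia y : FPr A B) • (vt true 1 : Vert (tr A B)) = vt true 1 := by
  rw [smul_vt, mul_one]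
  exact (vt_eq_iff.mpr ⟨(show fam A B true from y), one_mul _⟩).symm

theorem ib_vt (y : B) : (ib y : FPr A B) • (vt false 1 : Vert (tr A B)) = vt false 1 := by
  rw [smul_vt, mul_one]
  exact (vt_eq_iff.mpr ⟨(show fam A B false from y), one_mul _⟩).symm

theorem type_line {L : ℤ → Vert (tr A B)} (hL : IsLine (graph (tr A B)) L) (n : ℤ) :
    (L (n + 1)).1 = !(L n).1 := fst_adj (hL.adj n)

/-- The product of `a` and `b` generates a malnormal subgroup of the free product if `b` is not an
involution. -/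
theorem mal_ab {a : A} {b : B} (ha : a ≠ 1) (hb : b * b ≠ 1) {h : FPr A B} {i j : ℤ}
    (hi : i ≠ 0) (e : h * (ia a * ib b) ^ i * h⁻¹ = (ia a * ib b : FPr A B) ^ j) :
    ∃ m : ℤ, h = (ia a * ib b) ^ m := by
  have hb1 : b ≠ 1 := by rintro rfl; simp at hb
  set z : FPr A B := ia a * ib b with hz
  have hT := treeAct (tr_inj (A := A) (B := B))
  have hz1 : ra z ≠ 1 := by rw [hz]; simpa using ha
  have hz2 : rb z ≠ 1 := by rw [hz]; simpa using hb1
  obtain ⟨L, l, hax⟩ := hT.exists_axis (fp_nofix hz1 hz2)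
  set T := graph (tr A B) with hTd
  let v : Vert (tr A B) := vt true 1
  let w : Vert (tr A B) := vt false 1
  have hvw : T.Adj v w := adj_vt true 1
  have hbw : ∀ y : B, (ib y : FPr A B) • w = w := by
    intro y
    exact ib_vt y
  have hav : ∀ y : A, (ia y : FPr A B) • v = v := by
    intro y
    exact ia_vt y
  have hzw : z • w = (ia a : FPr A B) • w := by rw [hz, mul_smul, hbw]
  have hzv : z⁻¹ • v = (ib b : FPr A B)⁻¹ • v := by
    rw [hz, mul_inv_rev, mul_smul]
    congr 1
    rw [inv_smul_eq_iff, hav]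
  have hd1 : T.dist v w = 1 := SimpleGraph.dist_eq_one_iff_adj.mpr hvw
  have dw : T.dist w (z • w) ≤ 2 := by
    rw [hzw]
    have h1 := hT.isTree.connected.dist_triangle (u := w) (v := v) (w := (ia a : FPr A B) • w)
    have h2 : T.dist v ((ia a : FPr A B) • w) = 1 := by
      conv_lhs => rw [← hav a]
      rw [hT.dist_smul, hd1]
    rw [h2, SimpleGraph.dist_comm (u := w) (v := v), hd1] at h1
    exact h1
  have dv : T.dist v (z • v) ≤ 2 := by
    rw [SimpleGraph.dist_comm, hT.dist_smul_left, hzv]
    have h1 := hT.isTree.connected.dist_triangle (u := v) (v := w) (w := (ib b : FPr A B)⁻¹ • v)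
    have h2 : T.dist w ((ib b : FPr A B)⁻¹ • v) = 1 := by
      rw [← hT.dist_smul (ib b : FPr A B), smul_inv_smul, hbw, SimpleGraph.dist_comm, hd1]
    rw [h2, hd1] at h1
    exact h1
  have htype : ∀ g : FPr A B, ∀ x : Vert (tr A B), (g • x).1 = x.1 := fun _ _ => rfl
  have hl : l = 2 := by
    obtain ⟨k, _, h2⟩ := hT.proj_between hax w
    have h3 := hax.pos
    have h4 : l ≠ 1 := by
      rintro rfl
      have h5 := type_line hax.line 0
      have h6 := hax.smul 0
      have h7 := htype z (L 0)
      rw [h6] at h7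
      push_cast at h7
      rw [zero_add] at h5
      rw [h5] at h7
      revert h7; cases (L 0).1 <;> simp
    omega
  subst hl
  obtain ⟨k, hk⟩ := hT.mem_axis hax dw
  obtain ⟨m, hm⟩ := hT.mem_axis hax dv
  have hzk : z • w = L (k + 2) := by rw [hk, hax.smul]; norm_num
  have hmk : m = k + 1 := by
    have h1 := hax.line.dist hT.isTree m k
    rw [← hm, ← hk, hd1] at h1
    have h2 := hax.line.dist hT.isTree m (k + 2)
    rw [← hm, ← hzk, hzw] at h2
    have h3 : T.dist v ((ia a : FPr A B) • w) = 1 := by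
      conv_lhs => rw [← hav a]
      rw [hT.dist_smul, hd1]
    rw [h3] at h2
    omega
  subst hmk
  have hshift : ∀ n s : ℤ, z ^ s • L n = L (n + 2 * s) := by
    intro n s
    rw [hax.smul_zpow]; congr 1; push_cast; ring
  -- displacement
  have haxn : ∀ n : ℕ, 0 < n → IsAxis T (z ^ n) L (n * 2) := by
    intro n hn
    refine ⟨hax.line, by omega, fun s => ?_⟩
    rw [← zpow_natCast, hshift]; congr 1; push_cast; ring
  have hdisp : ∀ (s : ℤ) (p : Vert (tr A B)), T.dist p (z ^ s • p) =
      T.dist p (z ^ s.natAbs • p) := by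
    intro s p
    rcases Int.natAbs_eq s with h1 | h1
    · conv_lhs => rw [h1]
      rw [zpow_natCast]
    · conv_lhs => rw [h1]
      rw [zpow_neg, zpow_natCast, SimpleGraph.dist_comm, hT.dist_smul_left, inv_inv]
  have hj : j ≠ 0 := by
    rintro rfl
    rw [zpow_zero] at e
    have h1 : z ^ i = 1 := by
      have : z ^ i = h⁻¹ * (h * z ^ i * h⁻¹) * h := by group
      rw [this, e]; group
    have h2 := hshift 0 i
    rw [h1, one_smul] at h2
    have h3 := hax.line.injective hT.isTree h2
    omega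
  have hdp : ∀ p, T.dist (h • p) (z ^ j.natAbs • h • p) = T.dist p (z ^ i.natAbs • p) := by
    intro p
    rw [← hdisp, ← hdisp, ← e, mul_smul, mul_smul, inv_smul_smul, hT.dist_smul]
  have hLn : ∀ (s : ℕ) (n : ℤ), T.dist (L n) (z ^ s • L n) = 2 * s := by
    intro s n
    rw [← zpow_natCast, hshift, hax.line.dist hT.isTree]
    omega
  have hij : i.natAbs = j.natAbs := by
    obtain ⟨_, _, h1⟩ := hT.proj_between (haxn j.natAbs (by omega)) (h • L 0)
    rw [hdp, hLn] at h1
    have h2 := hdp (h⁻¹ • L 0)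
    rw [smul_inv_smul, hLn] at h2
    obtain ⟨_, _, h3⟩ := hT.proj_between (haxn i.natAbs (by omega)) (h⁻¹ • L 0)
    rw [← h2] at h3
    omega
  have hmap : ∀ n, ∃ n', h • L n = L n' := by
    intro n
    apply hT.mem_axis (haxn j.natAbs (by omega))
    rw [hdp, hLn]
    omega
  have hLtype : ∀ n s : ℤ, (L (n + 2 * s)).1 = (L n).1 := by
    intro n s
    rw [← hshift, htype]
  have hpar : ∀ n n' : ℤ, (L n').1 = (L n).1 → ∃ s, n' = n + 2 * s := by
    intro n n' h1
    rcases Int.even_or_odd' (n' - n) with ⟨s, h2 | h2⟩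
    · exact ⟨s, by omega⟩
    · exfalso
      have h3 : n' = (n + 2 * s) + 1 := by omega
      rw [h3, type_line hax.line, hLtype] at h1
      revert h1; cases (L n).1 <;> simp
  rcases hT.map_line hax.line hmap with ⟨c, hc⟩ | ⟨c, hc⟩
  · obtain ⟨s, hs⟩ := hpar k (c + k) (by rw [← hc, htype])
    refine ⟨s, ?_⟩
    have h1 : (z ^ s)⁻¹ * h = 1 := by
      apply fp_adj hvw
      · rw [mul_smul, hm, hc, show c + (k + 1) = (k + 1) + 2 * s from by omega, ← hshift,
          inv_smul_smul]
      · rw [mul_smul, hk, hc, show c + k = k + 2 * s from by omega, ← hshift, inv_smul_smul]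
    rw [inv_mul_eq_one] at h1
    exact h1.symm
  · exfalso
    obtain ⟨s, hs⟩ := hpar k (c - k) (by rw [← hc, htype])
    set g := (z ^ s)⁻¹ * h with hg
    have g1 : g • w = w := by
      rw [hg, mul_smul, hk, hc, show c - k = k + 2 * s from by omega, ← hshift, inv_smul_smul]
    have g2 : g • v = L (k - 1) := by
      rw [hg, mul_smul, hm, hc, show c - (k + 1) = (k - 1) + 2 * s from by omega, ← hshift,
        inv_smul_smul]
    have g3 : g • L (k - 1) = v := by
      rw [hg, mul_smul, hc, show c - (k - 1) = (k + 1) + 2 * s from by omega, ← hshift,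
        inv_smul_smul, hm]
    have g4 : L (k - 1) = (ib b : FPr A B)⁻¹ • v := by
      rw [← hzv, hm]
      have := hshift (k + 1) (-1)
      rw [zpow_neg, zpow_one] at this
      rw [this]; congr 1; ring
    have g5 : ib b * g = 1 := by
      apply fp_adj hvw
      · rw [mul_smul, g2, g4, smul_inv_smul]
      · rw [mul_smul, g1, hbw]
    have g6 : g = (ib b)⁻¹ := (inv_eq_of_mul_eq_one_right g5).symm
    rw [g4, g6] at g3
    have g7 : (ib b : FPr A B) * ib b = 1 := by
      apply fp_adj hvw
      · rw [mul_smul]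
        have := congrArg (fun x => (ib b : FPr A B) • (ib b : FPr A B) • x) g3
        simp only [smul_inv_smul] at this
        exact this.symm
      · rw [mul_smul, hbw, hbw]
    rw [← map_mul] at g7
    exact hb (ib_inj (g7.trans (map_one _).symm))

end Pool.Agent.H361.AM
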