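import Mathlib
import Pool.Agent.H361.AM.FP

set_option autoImplicit false

/-!
# The amalgamated product of a group and the modular group
-/

namespace Pool.Agent.H361.AM

open Monoid Monoid.PushoutI Pool.Agent.Helper270.Tree Pool.Agent.Helper270.HNN

/-- The modular group as a free product of cyclic groups of order `2` and `3`. -/
abbrev H23 : Type := FPr (Multiplicative (ZMod 2)) (Multiplicative (ZMod 3))

/-- The generator of order two. -/
def a2 : Multiplicative (ZMod 2) := Multiplicative.ofAdd 1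
/-- The generator of order three. -/
def b3 : Multiplicative (ZMod 3) := Multiplicative.ofAdd 1

/-- The product of the generators. -/
def z23 : H23 := ia a2 * ib b3

theorem a2_ne : a2 ≠ 1 := by decide
theorem b3_ne : b3 ≠ 1 := by decide
theorem b3_sq : b3 * b3 ≠ 1 := by decide
theorem a2_pow : a2 ^ 2 = 1 := by decide
theorem b3_pow : b3 ^ 3 = 1 := by decide

theorem fp_top {A B : Type} [Group A] [Group B] {S : Subgroup (FPr A B)}
    (h1 : ∀ a, ia a ∈ S) (h2 : ∀ b, ib b ∈ S) (g : FPr A B) : g ∈ S := by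
  let f : FPr A B →* S := fpl (ia.codRestrict S h1) (ib.codRestrict S h2)
  have : S.subtype.comp f = MonoidHom.id _ := by
    apply fp_ext
    · intro a; simp [f]
    · intro b; simp [f]
  have h := DFunLike.congr_fun this g
  simp only [MonoidHom.coe_comp, Function.comp_apply, Subgroup.coe_subtype,
    MonoidHom.id_apply] at h
  rw [← h]
  exact (f g).2

theorem zm_gen {n : ℕ} [NeZero n] (x : Multiplicative (ZMod n)) :
    x = (Multiplicative.ofAdd 1) ^ (Multiplicative.toAdd x).val := by
  rw [← ofAdd_nsmul, nsmul_one, ZMod.natCast_zmod_val, ofAdd_toAdd]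

theorem z23_inf {n : ℕ} (hn : 0 < n) : z23 ^ n ≠ 1 := by
  apply fp_inf _ _ hn
  · simpa [z23] using a2_ne
  · simpa [z23] using b3_ne

theorem h23_five {u : H23} (h : u ^ 5 = 1) : u = 1 := by
  rcases fp_tors (n := 5) (by norm_num) h with ⟨g, a, rfl⟩ | ⟨g, b, rfl⟩
  · rw [conj_pow, ← map_pow] at h
    have h1 : (ia (a ^ 5) : H23) = 1 := by
      have : (ia (a ^ 5) : H23) = g⁻¹ * (g * ia (a ^ 5) * g⁻¹) * g := by group
      rw [this, h]; group
    have h2 : a ^ 5 = 1 := ia_inj (h1.trans (map_one _).symm)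
    have h3 : ∀ a : Multiplicative (ZMod 2), a ^ 5 = 1 → a = 1 := by decide
    rw [h3 a h2]; simp
  · rw [conj_pow, ← map_pow] at h
    have h1 : (ib (b ^ 5) : H23) = 1 := by
      have : (ib (b ^ 5) : H23) = g⁻¹ * (g * ib (b ^ 5) * g⁻¹) * g := by group
      rw [this, h]; group
    have h2 : b ^ 5 = 1 := ib_inj (h1.trans (map_one _).symm)
    have h3 : ∀ a : Multiplicative (ZMod 3), a ^ 5 = 1 → a = 1 := by decide
    rw [h3 b h2]; simp

/-- The maps of the amalgam: the generator of `ℤ` goes to `s` and to the product of the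
generators of the modular group. -/
def edge (K : Type) [Group K] (s : K) : ∀ i, Multiplicative ℤ →* fam K H23 i
  | true => zpowersHom K s
  | false => zpowersHom H23 z23

/-- The amalgamated product of `K` and the modular group, where `s` is identified with the product
of the generators of the modular group. -/
abbrev Am (K : Type) [Group K] (s : K) : Type := PushoutI (edge K s)

/-- The element `s` has infinite order. -/
def InfOrd {K : Type} [Group K] (s : K) : Prop := ∀ n : ℕ, 0 < n → s ^ n ≠ 1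

theorem InfOrd.zpow {K : Type} [Group K] {s : K} (h : InfOrd s) {n : ℤ} (hn : s ^ n = 1) :
    n = 0 := by
  by_contra hne
  rcases Int.natAbs_eq n with h1 | h1
  · rw [h1, zpow_natCast] at hn
    exact h _ (by omega) hn
  · rw [h1, zpow_neg, zpow_natCast, inv_eq_one] at hn
    exact h _ (by omega) hn

theorem InfOrd.ne_one {K : Type} [Group K] {s : K} (h : InfOrd s) : s ≠ 1 := by
  intro hs
  exact h 1 one_pos (by rw [hs, one_pow])

theorem z23_infOrd : InfOrd z23 := fun _ hn => z23_inf hn

theorem zpowersHom_inj {K : Type} [Group K] {s : K} (h : InfOrd s) :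
    Function.Injective (zpowersHom K s) := by
  rw [injective_iff_map_eq_one]
  intro a ha
  rw [zpowersHom_apply] at ha
  exact Multiplicative.toAdd.injective (h.zpow ha)

section Am

variable {K : Type} [Group K] {s : K}

/-- The map of `K` to the amalgam. -/
def ik (s : K) : K →* Am K s := PushoutI.of (φ := edge K s) true
/-- The map of the modular group to the amalgam. -/
def ih (s : K) : H23 →* Am K s := PushoutI.of (φ := edge K s) false

theorem ik_s (s : K) : ik s s = ih s z23 := by
  have h1 := of_apply_eq_base (edge K s) true (Multiplicative.ofAdd 1)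
  have h2 := of_apply_eq_base (edge K s) false (Multiplicative.ofAdd 1)
  have h3 : edge K s true (Multiplicative.ofAdd 1) = s := by
    change zpowersHom K s (Multiplicative.ofAdd 1) = s
    rw [zpowersHom_apply]; simp
  have h4 : edge K s false (Multiplicative.ofAdd 1) = z23 := by
    change zpowersHom H23 z23 (Multiplicative.ofAdd 1) = z23
    rw [zpowersHom_apply]; simp
  rw [h3] at h1
  rw [h4] at h2
  exact h1.trans h2.symm

theorem edge_inj (hs : InfOrd s) : ∀ i, Function.Injective (edge K s i)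
  | true => zpowersHom_inj hs
  | false => zpowersHom_inj z23_infOrd

theorem ik_inj (hs : InfOrd s) : Function.Injective (ik s) := of_injective (edge_inj hs) true
theorem ih_inj (hs : InfOrd s) : Function.Injective (ih s) := of_injective (edge_inj hs) false

theorem edge_mal (s : K) : Mal (edge K s) (!true) := by
  intro h c c' hc e
  change H23 at h
  change h * zpowersHom H23 z23 c * h⁻¹ = zpowersHom H23 z23 c' at e
  rw [zpowersHom_apply, zpowersHom_apply] at e
  obtain ⟨m, hm⟩ := mal_ab a2_ne b3_sq (fun h0 => hc (Multiplicative.toAdd.injective h0)) e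
  refine ⟨Multiplicative.ofAdd m, ?_⟩
  change zpowersHom H23 z23 (Multiplicative.ofAdd m) = h
  rw [zpowersHom_apply, hm]; rfl

/-- The universal property. -/
def aml {M : Type} [Group M] (s : K) (f : K →* M) (g : H23 →* M) (h : f s = g z23) :
    Am K s →* M :=
  PushoutI.lift (fun i => match i with
    | true => f
    | false => g) (zpowersHom M (f s)) (by
      intro i
      apply MonoidHom.ext
      intro x
      cases i
      · change g (zpowersHom H23 z23 x) = zpowersHom M (f s) x
        rw [zpowersHom_apply, zpowersHom_apply, map_zpow, h]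
      · change f (zpowersHom K s x) = zpowersHom M (f s) x
        rw [zpowersHom_apply, zpowersHom_apply, map_zpow])

@[simp] theorem aml_ik {M : Type} [Group M] (f : K →* M) (g : H23 →* M) (h : f s = g z23)
    (k : K) : aml s f g h (ik s k) = f k := by
  unfold aml ik
  exact PushoutI.lift_of (φ := edge K s) _ _ _ (i := true) k

@[simp] theorem aml_ih {M : Type} [Group M] (f : K →* M) (g : H23 →* M) (h : f s = g z23)
    (k : H23) : aml s f g h (ih s k) = g k := by
  unfold aml ih
  exact PushoutI.lift_of (φ := edge K s) _ _ _ (i := false) k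

theorem am_ext {M : Type} [Group M] {f g : Am K s →* M} (h1 : ∀ a, f (ik s a) = g (ik s a))
    (h2 : ∀ b, f (ih s b) = g (ih s b)) : f = g := by
  apply PushoutI.hom_ext_nonempty
  intro i
  apply MonoidHom.ext
  intro x
  cases i
  · exact h2 x
  · exact h1 x

theorem am_top {S : Subgroup (Am K s)} (h1 : ∀ a, ik s a ∈ S) (h2 : ∀ b, ih s b ∈ S)
    (g : Am K s) : g ∈ S := by
  let f : Am K s →* S := aml s ((ik s).codRestrict S h1) ((ih s).codRestrict S h2) (by
    ext; simp [ik_s])
  have : S.subtype.comp f = MonoidHom.id _ := by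
    apply am_ext
    · intro a; simp [f]
    · intro b; simp [f]
  have h := DFunLike.congr_fun this g
  simp only [MonoidHom.coe_comp, Function.comp_apply, Subgroup.coe_subtype,
    MonoidHom.id_apply] at h
  rw [← h]
  exact (f g).2

/-- The vertices. -/
theorem ik_vt {k : K} {g : Am K s} : ((g * ik s k) • (vt true 1 : Vert (edge K s))) =
    g • vt true 1 := by
  rw [smul_vt, smul_vt, mul_one, mul_one]
  exact (vt_eq_iff.mpr ⟨(show fam K H23 true from k), rfl⟩).symm

theorem stab_k {g : Am K s} : g • (vt true 1 : Vert (edge K s)) = vt true 1 ↔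
    ∃ k : K, g = ik s k := by
  rw [fix_vt]
  constructor
  · rintro ⟨x, hx⟩
    exact ⟨x, by rw [hx]; change 1 * ik s x * 1⁻¹ = _; group⟩
  · rintro ⟨x, rfl⟩
    exact ⟨x, by change _ = 1 * ik s x * 1⁻¹; group⟩

theorem stab_h {g : Am K s} : g • (vt false 1 : Vert (edge K s)) = vt false 1 ↔
    ∃ k : H23, g = ih s k := by
  rw [fix_vt]
  constructor
  · rintro ⟨x, hx⟩
    exact ⟨x, by rw [hx]; change 1 * ih s x * 1⁻¹ = _; group⟩
  · rintro ⟨x, rfl⟩
    exact ⟨x, by change _ = 1 * ih s x * 1⁻¹; group⟩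

/-- The involution of the modular group is not in `K`. -/
theorem a2_not (hs : InfOrd s) (k : K) : ih s (ia a2) ≠ ik s k := by
  intro h
  have h1 : (ih s (ia a2)) • (vt true 1 : Vert (edge K s)) = vt true 1 := stab_k.mpr ⟨k, h⟩
  have h2 : (ih s (ia a2)) • (vt (!true) 1 : Vert (edge K s)) = vt (!true) 1 :=
    stab_h.mpr ⟨ia a2, rfl⟩
  obtain ⟨c, hc⟩ := fix_edge (edge_inj hs) h1 h2
  have h3 : (base (edge K s) c : Am K s) = ih s (z23 ^ Multiplicative.toAdd c) := by
    rw [← of_apply_eq_base (edge K s) false c]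
    rfl
  rw [h3, one_mul, inv_one, mul_one] at hc
  have h4 := ih_inj hs hc
  have h5 : z23 ^ (Multiplicative.toAdd c * 2) = 1 := by
    rw [zpow_mul, ← h4]
    change (ia a2 : H23) ^ ((2 : ℕ) : ℤ) = 1
    rw [zpow_natCast, ← map_pow, a2_pow, map_one]
  have h6 := z23_infOrd.zpow h5
  have h7 : Multiplicative.toAdd c = 0 := by omega
  rw [h7, zpow_zero] at h4
  exact a2_ne (ia_inj (h4.trans (map_one _).symm))

end Am

section SGT

variable {K K' : Type} [Group K] [Group K'] {s : K} {s' : K'}

/-- A central element of order five determines the vertex group. -/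
theorem step1 (hs : InfOrd s) (hs' : InfOrd s') {t : K} (ht : ∀ k, t * k = k * t)
    (ht5 : t ^ 5 = 1) (ht1 : t ≠ 1) (Φ : Am K s ≃* Am K' s') :
    ∃ g : Am K' s', ∀ k, Φ (ik s k) • (vt true g : Vert (edge K' s')) = vt true g := by
  have hT := treeAct (edge_inj hs')
  have hne : Φ (ik s t) ≠ 1 := by
    intro h
    rw [MulEquiv.map_eq_one_iff] at h
    exact ht1 (ik_inj hs (h.trans (map_one _).symm))
  obtain ⟨v, hv⟩ := fix_of_finite hT (g := Φ (ik s t)) (n := 5) (by norm_num) (by
    rw [← map_pow, ← map_pow, ht5, map_one, map_one])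
  obtain ⟨g, hg⟩ := exists_vt v
  rcases hvt : v.1 with _ | _
  · exfalso
    rw [hvt] at hg
    rw [hg] at hv
    obtain ⟨x, hx⟩ := fix_vt.mp hv
    change H23 at x
    change Φ (ik s t) = g * ih s' x * g⁻¹ at hx
    have h1 : Φ (ik s t) ^ 5 = 1 := by rw [← map_pow, ← map_pow, ht5, map_one, map_one]
    rw [hx, conj_pow, ← map_pow] at h1
    have h2 : ih s' (x ^ 5) = 1 := by
      have : ih s' (x ^ 5) = g⁻¹ * (g * ih s' (x ^ 5) * g⁻¹) * g := by group
      rw [this, h1]; group
    have h3 := h23_five (ih_inj hs' (h2.trans (map_one _).symm))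
    apply hne
    rw [hx, h3]; simp
  · rw [hvt] at hg
    refine ⟨g, fun k => ?_⟩
    rw [← hg]
    symm
    apply unique_fix (edge_inj hs') (edge_mal s') hne hvt (show (Φ (ik s k) • v).1 = true from hvt)
      hv
    rw [← mul_smul, ← map_mul, ← map_mul, ht, map_mul, map_mul, mul_smul, hv]

/-- The image of the modular group. -/
theorem step2 (hs : InfOrd s) (hs' : InfOrd s') (Φ : Am K s ≃* Am K' s') {f : K → K'}
    (hf : ∀ k, Φ (ik s k) = ik s' (f k)) :
    ∃ κ : K', ∀ h : H23, Φ (ih s h) • (vt false (ik s' κ) : Vert (edge K' s')) =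
      vt false (ik s' κ) := by
  have hT := treeAct (edge_inj hs')
  set X := Φ (ih s (ia a2)) with hX
  set Y := Φ (ih s (ib b3)) with hY
  have hX2 : X ^ 2 = 1 := by rw [hX, ← map_pow, ← map_pow, ← map_pow, a2_pow]; simp
  have hY3 : Y ^ 3 = 1 := by rw [hY, ← map_pow, ← map_pow, ← map_pow, b3_pow]; simp
  have hXY : X * Y = ik s' (f s) := by
    rw [hX, hY, ← map_mul, ← map_mul]
    change Φ (ih s z23) = _
    rw [← ik_s, hf]
  obtain ⟨x, hx⟩ := fix_of_finite hT (by norm_num) hX2
  obtain ⟨p, hp1, hp2⟩ := hT.common_fixed {X} Y ⟨x, by simpa using hx⟩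
    (fix_of_finite hT (by norm_num) hY3) (by
      intro a ha
      rw [Set.mem_singleton_iff.mp ha, hXY]
      exact ⟨vt true 1, stab_k.mpr ⟨_, rfl⟩⟩)
  have hp1' := hp1 X rfl
  have hall : ∀ h : H23, Φ (ih s h) • p = p := by
    intro h
    have := fp_top (S := (MulAction.stabilizer (Am K' s') p).comap
      (Φ.toMonoidHom.comp (ih s))) (by
        intro a
        rw [zm_gen a, map_pow]
        apply Subgroup.pow_mem
        exact hp1') (by
        intro a
        rw [zm_gen a, map_pow]
        apply Subgroup.pow_mem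
        exact hp2) h
    exact this
  have hfs : (ik s' (f s)) ≠ 1 := by
    rw [← hf]
    intro h
    rw [MulEquiv.map_eq_one_iff] at h
    exact hs.ne_one (ik_inj hs (h.trans (map_one _).symm))
  have h1 : (ik s' (f s)) • (vt true 1 : Vert (edge K' s')) = vt true 1 := stab_k.mpr ⟨_, rfl⟩
  have h2 : (ik s' (f s)) • p = p := by rw [← hXY, mul_smul, hp2, hp1']
  rcases hpt : p.1 with _ | _
  · obtain ⟨i, g, hg1, hg2⟩ := adj_fix (edge_inj hs') (i := true) (edge_mal s') hfs rfl hpt h1 h2
    have hi : i = true := (congrArg Sigma.fst hg1).symm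
    subst hi
    obtain ⟨κ, hκ⟩ := vt_eq_iff.mp hg1
    refine ⟨κ, fun h => ?_⟩
    have h3 : (vt false (ik s' κ) : Vert (edge K' s')) = p := by
      rw [hg2, ← hκ]
      change _ = vt false (1 * ik s' κ)
      rw [one_mul]
    rw [h3, hall]
  · exfalso
    have h3 := unique_fix (edge_inj hs') (edge_mal s') hfs (x := vt true 1) (y := p) rfl hpt h1 h2
    have h4 : ∀ g : Am K s, Φ g • (vt true 1 : Vert (edge K' s')) = vt true 1 := by
      intro g
      have := am_top (S := (MulAction.stabilizer (Am K' s')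
        (vt true 1 : Vert (edge K' s'))).comap Φ.toMonoidHom) (by
          intro k
          exact stab_k.mpr ⟨f k, hf k⟩) (by
          intro h
          change Φ (ih s h) • (vt true 1 : Vert (edge K' s')) = vt true 1
          rw [h3, hall]) g
      exact this
    have h5 := h4 (Φ.symm (ih s' (ia a2)))
    rw [MulEquiv.apply_symm_apply] at h5
    obtain ⟨k, hk⟩ := stab_k.mp h5
    exact a2_not hs' k hk

/-- **Single gadget theorem.** An isomorphism of the amalgams of `K`, `K'` (with central elements of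
order five) and the modular group along `s`, `s'` comes up to conjugation from an isomorphism of `K`
and `K'` which maps `s` to a conjugate of `s'` or of its inverse. -/
theorem sgt (hs : InfOrd s) (hs' : InfOrd s') {t : K} (ht : ∀ k, t * k = k * t)
    (ht5 : t ^ 5 = 1) (ht1 : t ≠ 1) {t' : K'} (ht' : ∀ k, t' * k = k * t')
    (ht5' : t' ^ 5 = 1) (ht1' : t' ≠ 1) (Φ : Am K s ≃* Am K' s') :
    ∃ (γ : Am K' s') (ψ : K ≃* K'), (∀ k, Φ (ik s k) = γ * ik s' (ψ k) * γ⁻¹) ∧
      ∃ κ : K', ψ s = κ * s' * κ⁻¹ ∨ ψ s = κ * s'⁻¹ * κ⁻¹ := by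
  obtain ⟨γ, hγ⟩ := step1 hs hs' ht ht5 ht1 Φ
  obtain ⟨δ, hδ⟩ := step1 hs' hs ht' ht5' ht1' Φ.symm
  let Φ1 : Am K s ≃* Am K' s' := Φ.trans (MulAut.conj γ⁻¹)
  have hΦ1 : ∀ x, Φ1 x = γ⁻¹ * Φ x * γ := by
    intro x
    simp [Φ1, MulAut.conj_apply]
  have hf0 : ∀ k, ∃ k', Φ1 (ik s k) = ik s' k' := by
    intro k
    apply stab_k.mp
    rw [hΦ1, mul_smul, mul_smul]
    have h1 := hγ k
    have h2 : γ • (vt true 1 : Vert (edge K' s')) = vt true γ := by rw [smul_vt, mul_one]
    rw [h2, h1, ← h2, inv_smul_smul]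
  choose f hf using hf0
  have hΨ : ∀ x, Φ1.symm x = Φ.symm γ * Φ.symm x * (Φ.symm γ)⁻¹ := by
    intro x
    apply Φ1.injective
    rw [MulEquiv.apply_symm_apply, hΦ1, map_mul, map_mul, map_inv]
    simp only [MulEquiv.apply_symm_apply]
    group
  have hf0' : ∀ k, ∃ k', Φ1.symm (ik s' k) = ik s k' := by
    have h1 : ∀ k, Φ1.symm (ik s' k) • (vt true (Φ.symm γ * δ) : Vert (edge K s)) =
        vt true (Φ.symm γ * δ) := by
      intro k
      rw [hΨ, ← smul_vt, mul_smul, mul_smul, inv_smul_smul, hδ]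
    have h2 : (vt true 1 : Vert (edge K s)) = vt true (Φ.symm γ * δ) := by
      have hne : ik s t ≠ 1 := fun h => ht1 (ik_inj hs (h.trans (map_one _).symm))
      apply unique_fix (edge_inj hs) (edge_mal s) hne rfl rfl (stab_k.mpr ⟨_, rfl⟩)
      have h3 : ik s t = Φ1.symm (ik s' (f t)) := by rw [← hf, MulEquiv.symm_apply_apply]
      rw [h3]; exact h1 _
    intro k
    apply stab_k.mp
    rw [h2]; exact h1 k
  choose f' hf' using hf0'
  have hff : ∀ k, f' (f k) = k := by
    intro k
    apply ik_inj hs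
    rw [← hf', ← hf, MulEquiv.symm_apply_apply]
  have hff' : ∀ k, f (f' k) = k := by
    intro k
    apply ik_inj hs'
    rw [← hf, ← hf', MulEquiv.apply_symm_apply]
  let ψ : K ≃* K' :=
    { toFun := f
      invFun := f'
      left_inv := hff
      right_inv := hff'
      map_mul' := by
        intro a b
        apply ik_inj hs'
        rw [map_mul, ← hf, ← hf, ← hf, map_mul, map_mul] }
  refine ⟨γ, ψ, fun k => ?_, ?_⟩
  · change _ = γ * ik s' (f k) * γ⁻¹
    rw [← hf, hΦ1]; group
  obtain ⟨κ, hκ⟩ := step2 hs hs' Φ1 hf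
  obtain ⟨κ₂, hκ₂⟩ := step2 hs' hs Φ1.symm hf'
  -- the stabiliser of the vertex is mapped to the modular group
  have hT := treeAct (edge_inj hs)
  set q' : Vert (edge K s) := vt false (ik s (f' κ * κ₂)) with hq'
  have hstab : ∀ g : Am K' s', g • (vt false (ik s' κ) : Vert (edge K' s')) = vt false (ik s' κ) →
      Φ1.symm g • q' = q' := by
    intro g hg
    obtain ⟨x, hx⟩ := fix_vt.mp hg
    change H23 at x
    change g = ik s' κ * ih s' x * (ik s' κ)⁻¹ at hx
    have h1 : q' = Φ1.symm (ik s' κ) • vt false (ik s κ₂) := by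
      rw [hf', smul_vt, ← map_mul]
    rw [hx, map_mul, map_mul, map_inv, h1, mul_smul, mul_smul, inv_smul_smul, hκ₂]
  have hfix : ∀ h : H23, ih s h • q' = q' := by
    intro h
    have := hstab _ (hκ h)
    rwa [MulEquiv.symm_apply_apply] at this
  have hvq : (vt false 1 : Vert (edge K s)) = q' := by
    by_contra hne
    have ha1 : (graph (edge K s)).Adj (vt false 1) (vt true 1) := adj_vt false 1
    have ha2 : (graph (edge K s)).Adj (vt true 1) q' := by
      have h1 := adj_vt (φ := edge K s) true (ik s (f' κ * κ₂))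
      have h2 : (vt true (ik s (f' κ * κ₂)) : Vert (edge K s)) = vt true 1 := by
        have := stab_k.mpr ⟨f' κ * κ₂, (rfl : ik s (f' κ * κ₂) = _)⟩
        rwa [smul_vt, mul_one] at this
      rw [h2] at h1
      exact h1
    have hd1 := SimpleGraph.dist_eq_one_iff_adj.mpr ha1
    have hd2 := SimpleGraph.dist_eq_one_iff_adj.mpr ha2
    have hd3 := hT.isTree.connected.dist_triangle (u := (vt false 1 : Vert (edge K s)))
      (v := vt true 1) (w := q')
    have hd4 : (graph (edge K s)).dist (vt false 1) q' ≠ 0 :=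
      fun h => hne (hT.isTree.connected.dist_eq_zero_iff.mp h)
    have hd5 : (graph (edge K s)).dist (vt false 1) q' ≠ 1 := by
      intro h
      have := fst_adj (SimpleGraph.dist_eq_one_iff_adj.mp h)
      simp [hq'] at this
    have h1 : ih s (ia a2) • (vt false 1 : Vert (edge K s)) = vt false 1 :=
      stab_h.mpr ⟨_, rfl⟩
    have h2 := hT.convex (z := vt true 1) h1 (hfix (ia a2)) (by omega)
    obtain ⟨k, hk⟩ := stab_k.mp h2
    exact a2_not hs k hk
  -- the generators of the edge groups
  have key1 : ∃ m : ℤ, f s = κ * s' ^ m * κ⁻¹ := by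
    have h1 : ik s' (f s) • (vt true (ik s' κ) : Vert (edge K' s')) = vt true (ik s' κ) := by
      have := stab_k.mpr ⟨κ, (rfl : ik s' κ = _)⟩
      rw [smul_vt, mul_one] at this
      rw [this]
      exact stab_k.mpr ⟨_, rfl⟩
    have h2 : ik s' (f s) • (vt (!true) (ik s' κ) : Vert (edge K' s')) =
        vt (!true) (ik s' κ) := by
      have := hκ z23
      rw [← ik_s, hf] at this
      exact this
    obtain ⟨c, hc⟩ := fix_edge (edge_inj hs') h1 h2
    refine ⟨Multiplicative.toAdd c, ?_⟩
    apply ik_inj hs'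
    rw [hc, ← of_apply_eq_base (edge K' s') true c, map_mul, map_mul, map_inv]
    rfl
  have key2 : ∃ n : ℤ, f' (κ * s' * κ⁻¹) = s ^ n := by
    have h0 : ik s' (κ * s' * κ⁻¹) • (vt false (ik s' κ) : Vert (edge K' s')) =
        vt false (ik s' κ) := by
      apply fix_vt.mpr
      refine ⟨(show fam K' H23 false from z23), ?_⟩
      change _ = ik s' κ * ih s' z23 * (ik s' κ)⁻¹
      rw [← ik_s, map_mul, map_mul, map_inv]
    have h1 := hstab _ h0
    rw [hf', ← hvq] at h1
    have h2 : ik s (f' (κ * s' * κ⁻¹)) • (vt (!false) 1 : Vert (edge K s)) = vt (!false) 1 :=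
      stab_k.mpr ⟨_, rfl⟩
    obtain ⟨c, hc⟩ := fix_edge (edge_inj hs) h1 h2
    refine ⟨Multiplicative.toAdd c, ?_⟩
    apply ik_inj hs
    rw [hc, ← of_apply_eq_base (edge K s) true c, one_mul, inv_one, mul_one]
    rfl
  obtain ⟨m, hm⟩ := key1
  obtain ⟨n, hn⟩ := key2
  have hnm : s ^ (n * m - 1) = 1 := by
    have h1 : f' (f s) = s ^ (n * m) := by
      have h2 : f s = (κ * s' * κ⁻¹) ^ m := by rw [hm, conj_zpow]
      rw [h2]
      have h3 : ∀ x (m : ℤ), f' (x ^ m) = f' x ^ m := fun x m => map_zpow ψ.symm x m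
      rw [h3, hn, zpow_mul]
    rw [hff] at h1
    rw [zpow_sub_one, ← h1, mul_inv_cancel]
  have hnm' : n * m = 1 := by have := hs.zpow hnm; omega
  refine ⟨κ, ?_⟩
  change f s = _ ∨ f s = _
  rcases Int.eq_one_or_neg_one_of_mul_eq_one' hnm' with ⟨_, h⟩ | ⟨_, h⟩
  · left; rw [hm, h, zpow_one]
  · right; rw [hm, h, zpow_neg_one]

end SGT

end Pool.Agent.H361.AM
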