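import Mathlib
import Pool.Agent.H361.AM.Gad

set_option autoImplicit false

/-!
# Free products with the cyclic group of order four
-/

namespace Pool.Agent.H361.AM

open Monoid Monoid.PushoutI Pool.Agent.Helper270.Tree Pool.Agent.Helper270.HNN

/-- Homomorphisms from finite cyclic groups. -/
noncomputable def zmHom {M : Type} [Group M] {n : ℕ} (g : M) (hg : g ^ n = 1) :
    Multiplicative (ZMod n) →* M :=
  AddMonoidHom.toMultiplicativeLeft
    (ZMod.lift n ⟨zmultiplesHom (Additive M) (Additive.ofMul g), by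
      simp only [zmultiplesHom_apply, natCast_zsmul]
      rw [← ofMul_pow, hg]; rfl⟩)

theorem zmHom_one {M : Type} [Group M] {n : ℕ} (g : M) (hg : g ^ n = 1) :
    zmHom g hg (Multiplicative.ofAdd 1) = g := by
  have h := ZMod.lift_coe n (⟨zmultiplesHom (Additive M) (Additive.ofMul g), by
      simp only [zmultiplesHom_apply, natCast_zsmul]
      rw [← ofMul_pow, hg]; rfl⟩ : {f : ℤ →+ Additive M // f n = 0}) 1
  simp only [Int.cast_one, zmultiplesHom_apply, one_smul] at h
  exact h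

/-- The cyclic group of order four. -/
abbrev C4 : Type := Multiplicative (ZMod 4)
/-- The cyclic group of order five. -/
abbrev C5 : Type := Multiplicative (ZMod 5)
/-- The generator of order four. -/
def b4 : C4 := Multiplicative.ofAdd 1
/-- The generator of order five. -/
def t5 : C5 := Multiplicative.ofAdd 1

theorem b4_pow : b4 ^ 4 = 1 := by decide
theorem t5_pow : t5 ^ 5 = 1 := by decide
theorem b4_ne : b4 ≠ 1 := by decide
theorem t5_ne : t5 ≠ 1 := by decide

/-- Conjugate to `y`, or to the inverse of `y`. -/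
def CI {M : Type} [Group M] (x y : M) : Prop := ∃ h, x = h * y * h⁻¹ ∨ x = h * y⁻¹ * h⁻¹

section Perm

variable {K : Type} [Group K]

/-- The embedding. -/
def emb (κ : K) (hκ : κ ≠ 1) : Fin 4 ↪ K ⊕ Bool :=
  ⟨![Sum.inl κ, Sum.inl 1, Sum.inr false, Sum.inr true], by
    intro i j h
    fin_cases i <;> fin_cases j <;> simp_all⟩

/-- The action of `K`. -/
def actK : K →* Equiv.Perm (K ⊕ Bool) where
  toFun k := Equiv.sumCongr (Equiv.mulLeft k) (Equiv.refl _)
  map_one' := by ext x; rcases x with x | x <;> simp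
  map_mul' a b := by ext x; rcases x with x | x <;> simp [mul_assoc]

/-- The permutation of order four. -/
noncomputable def actB (κ : K) (hκ : κ ≠ 1) : Equiv.Perm (K ⊕ Bool) :=
  Equiv.Perm.viaEmbeddingHom (emb κ hκ) (finRotate 4)

theorem actB_pow (κ : K) (hκ : κ ≠ 1) : actB κ hκ ^ 4 = 1 := by
  unfold actB
  rw [← map_pow]
  have : (finRotate 4) ^ 4 = 1 := by decide
  rw [this, map_one]

theorem actB_emb (κ : K) (hκ : κ ≠ 1) (i : Fin 4) :
    actB κ hκ (emb κ hκ i) = emb κ hκ (finRotate 4 i) :=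
  Equiv.Perm.viaEmbedding_apply _ _ _

theorem actB_not (κ : K) (hκ : κ ≠ 1) {x : K ⊕ Bool} (hx : x ∉ Set.range (emb κ hκ)) :
    actB κ hκ x = x :=
  Equiv.Perm.viaEmbedding_apply_of_notMem _ _ _ hx

theorem conj_one_letter {κ₁ κ₂ : K} (h1 : κ₁ ≠ 1) (h2 : κ₂ ≠ 1) {h : FPr K C4}
    (e : ib b4 * ia κ₁ = h * (ib b4 * ia κ₂) * h⁻¹) : κ₁ = κ₂ := by
  by_contra hne
  let ρ : FPr K C4 →* Equiv.Perm (K ⊕ Bool) :=
    fpl actK (zmHom (actB κ₁ h1) (actB_pow κ₁ h1))
  have hb : ρ (ib b4) = actB κ₁ h1 := by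
    simp only [ρ, fpl_ib]
    exact zmHom_one _ _
  have hk : ∀ k, ρ (ia k) = actK k := by
    intro k; simp only [ρ, fpl_ia]
  have e0 : actB κ₁ h1 (Sum.inl κ₁) = Sum.inl 1 := actB_emb κ₁ h1 0
  have e1 : actB κ₁ h1 (Sum.inl 1) = Sum.inr false := actB_emb κ₁ h1 1
  have e2 : actB κ₁ h1 (Sum.inr false) = Sum.inr true := actB_emb κ₁ h1 2
  have e3 : actB κ₁ h1 (Sum.inr true) = Sum.inl κ₁ := actB_emb κ₁ h1 3
  have hfix : ρ (ib b4 * ia κ₁) (Sum.inl 1) = Sum.inl 1 := by
    rw [map_mul, hb, hk, Equiv.Perm.mul_apply]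
    have : actK κ₁ (Sum.inl 1) = (Sum.inl κ₁ : K ⊕ Bool) := by simp [actK]
    rw [this, e0]
  have hno : ∀ x, ρ (ib b4 * ia κ₂) x ≠ x := by
    intro x hx
    rw [map_mul, hb, hk, Equiv.Perm.mul_apply] at hx
    rcases x with y | c
    · have h3 : actK κ₂ (Sum.inl y) = (Sum.inl (κ₂ * y) : K ⊕ Bool) := by simp [actK]
      rw [h3] at hx
      by_cases h4 : κ₂ * y = κ₁
      · rw [h4, e0] at hx
        have h5 : (1 : K) = y := Sum.inl_injective hx
        rw [← h5, mul_one] at h4
        exact hne h4.symm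
      · by_cases h5 : κ₂ * y = 1
        · rw [h5, e1] at hx
          simp at hx
        · rw [actB_not] at hx
          · have := Sum.inl_injective hx
            exact h2 (by simpa using this)
          · rintro ⟨i, hi⟩
            fin_cases i
            · exact h4 (Sum.inl_injective hi.symm)
            · exact h5 (Sum.inl_injective hi.symm)
            · exact Sum.inr_ne_inl hi
            · exact Sum.inr_ne_inl hi
    · have h3 : actK κ₂ (Sum.inr c) = (Sum.inr c : K ⊕ Bool) := by simp [actK]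
      rw [h3] at hx
      cases c
      · rw [e2] at hx
        simp at hx
      · rw [e3] at hx
        simp at hx
  apply hno (ρ h⁻¹ (Sum.inl 1))
  have h6 : ρ (ib b4 * ia κ₂) = ρ h⁻¹ * ρ (ib b4 * ia κ₁) * ρ h := by
    rw [e, ← map_mul, ← map_mul]
    congr 1
    group
  rw [h6, Equiv.Perm.mul_apply, Equiv.Perm.mul_apply]
  have h7 : ρ h (ρ h⁻¹ (Sum.inl 1)) = Sum.inl 1 := by
    rw [← Equiv.Perm.mul_apply, ← map_mul, mul_inv_cancel, map_one]; rfl
  rw [h7, hfix]

end Perm

section Chir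

/-- A permutation of order four. -/
def pb : Equiv.Perm (Fin 6) := ⟨![0, 1, 3, 5, 2, 4], ![0, 1, 4, 2, 5, 3], by decide, by decide⟩
/-- A permutation of order five. -/
def pt : Equiv.Perm (Fin 6) := ⟨![1, 2, 3, 4, 0, 5], ![4, 0, 1, 2, 3, 5], by decide, by decide⟩

theorem pb_pow : pb ^ 4 = 1 := by decide
theorem pt_pow : pt ^ 5 = 1 := by decide
theorem chir1 : ∀ x, (pb⁻¹ * pt⁻¹ * (pb⁻¹ * pb⁻¹) * (pt⁻¹ * pt⁻¹)) x ≠ x := by decide
theorem chir2 : ∃ x, (pb * pt * (pb * pb) * (pt * pt))⁻¹ x = x := by decide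

/-- The chiral element. -/
def chi {M : Type} [Group M] (b t : M) : M := b * t * (b * b) * (t * t)

theorem map_chi {M N : Type} [Group M] [Group N] (f : M →* N) (b t : M) :
    f (chi b t) = chi (f b) (f t) := by simp [chi]

theorem chiral {M : Type} [Group M] (ρ : M →* Equiv.Perm (Fin 6)) (β : M →* C4) {b t h : M}
    (hb : ρ b = pb) (ht : ρ t = pt) (hb' : β b = b4) (ht' : β t = 1) :
    ¬ (chi b⁻¹ t⁻¹ = h * chi b t * h⁻¹ ∨ chi b⁻¹ t⁻¹ = h * (chi b t)⁻¹ * h⁻¹) := by
  rintro (e | e)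
  · have h1 := congrArg β e
    rw [map_mul, map_mul, map_inv, map_chi, map_chi, map_inv, map_inv, hb', ht',
      mul_comm (β h), mul_inv_cancel_right] at h1
    revert h1
    decide
  · have h1 := congrArg ρ e
    rw [map_mul, map_mul, map_inv, map_inv, map_chi, map_chi, map_inv, map_inv, hb, ht] at h1
    obtain ⟨x, hx⟩ := chir2
    apply chir1 (ρ h x)
    have h2 : (chi pb⁻¹ pt⁻¹) = (pb⁻¹ * pt⁻¹ * (pb⁻¹ * pb⁻¹) * (pt⁻¹ * pt⁻¹)) := rfl
    rw [← h2, h1]
    simp only [Equiv.Perm.mul_apply]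
    have h3 : (ρ h)⁻¹ (ρ h x) = x := by simp
    rw [h3]
    have h4 : (chi pb pt)⁻¹ x = x := hx
    rw [h4]

end Chir

/-- The displacement of an elliptic element which fixes no neighbour of the vertex `x`. -/
theorem disp_eq {Γ V : Type} [Group Γ] [MulAction Γ V] {T : SimpleGraph V} (hT : TreeAct Γ T)
    {g : Γ} {x : V} (hx : g • x = x) (hn : ∀ y, T.Adj x y → g • y ≠ y) (z : V) :
    T.dist z (g • z) = 2 * T.dist z x := by
  obtain ⟨q, hq0, hqn, hadj, hd, hnb⟩ := exists_geod hT.isTree x z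
  have hadj' : ∀ i < T.dist x z, T.Adj (g • q i) (g • q (i + 1)) := fun i hi =>
    hT.adj g _ _ (hadj i hi)
  have hnb' : ∀ i, i + 2 ≤ T.dist x z → g • q i ≠ g • q (i + 2) := fun i hi h =>
    hnb i hi (smul_left_cancel g h)
  have h0 : 1 ≤ T.dist x z → T.dist z (g • q 1) = T.dist z (g • q 0) + 1 := by
    intro h1
    have a1 := hadj 0 (by omega)
    have a2 := hadj' 0 (by omega)
    rw [hq0, hx] at a2
    rw [hq0] at a1
    rw [hq0, hx]
    apply junction hT.isTree a1.symm a2
    · intro h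
      exact hn (q 1) a1 h.symm
    · have := (hd 1 h1).2
      rw [SimpleGraph.dist_comm (u := z) (v := x), SimpleGraph.dist_comm (u := z)]
      change T.dist x z = T.dist (q 1) z + 1
      rw [this]; omega
  have := nb hT.isTree (fun i => g • q i) (T.dist x z) hadj' hnb' z h0 _ le_rfl
  change T.dist z (g • q (T.dist x z)) = T.dist z (g • q 0) + T.dist x z at this
  rw [hqn, hq0, hx] at this
  rw [this, SimpleGraph.dist_comm (u := x)]
  omega

section A1

variable {K K' : Type} [Group K] [Group K']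

theorem fp_stab_t {A B : Type} [Group A] [Group B] {g : FPr A B} :
    g • (vt true 1 : Vert (tr A B)) = vt true 1 ↔ ∃ k : A, g = ia k := by
  constructor
  · intro h
    rcases fp_fix h with ⟨_, a, ha⟩ | ⟨h, _⟩
    · exact ⟨a, by rw [ha]; group⟩
    · cases h
  · rintro ⟨k, rfl⟩
    exact ia_vt k

theorem fp_stab_f {A B : Type} [Group A] [Group B] {g : FPr A B} :
    g • (vt false 1 : Vert (tr A B)) = vt false 1 ↔ ∃ k : B, g = ib k := by
  constructor
  · intro h
    rcases fp_fix h with ⟨h, _⟩ | ⟨_, a, ha⟩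
    · cases h
    · exact ⟨a, by rw [ha]; group⟩
  · rintro ⟨k, rfl⟩
    exact ib_vt k

theorem c4_sq : ∀ y : C4, y * y = 1 → y ^ 4 = 1 := by decide
theorem c4_five : ∀ a : C4, a ^ 5 = 1 → a = 1 := by decide

/-- A central element of order five determines the factor. -/
theorem fstep1 {t : K} (ht : ∀ k, t * k = k * t) (ht5 : t ^ 5 = 1) (ht1 : t ≠ 1)
    (Φ : FPr K C4 ≃* FPr K' C4) :
    ∃ g : FPr K' C4, ∀ k, Φ (ia k) • (vt true g : Vert (tr K' C4)) = vt true g := by
  have hT := treeAct (tr_inj (A := K') (B := C4))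
  have hne : Φ (ia t) ≠ 1 := by
    intro h
    rw [MulEquiv.map_eq_one_iff] at h
    exact ht1 (ia_inj (h.trans (map_one _).symm))
  have h5 : Φ (ia t) ^ 5 = 1 := by rw [← map_pow, ← map_pow, ht5, map_one, map_one]
  rcases fp_tors (n := 5) (by norm_num) h5 with ⟨g, a, hg⟩ | ⟨g, b, hg⟩
  · have h1 : Φ (ia t) • (vt true g : Vert (tr K' C4)) = vt true g := by
      have : (vt true g : Vert (tr K' C4)) = g • vt true 1 := by rw [smul_vt, mul_one]
      rw [hg, this, mul_smul, mul_smul, inv_smul_smul, ia_vt]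
    refine ⟨g, fun k => ?_⟩
    symm
    apply fp_uniq hne h1
    rw [← mul_smul, ← map_mul, ← map_mul, ht, map_mul, map_mul, mul_smul, h1]
  · exfalso
    rw [hg, conj_pow, ← map_pow] at h5
    have h2 : (ib (b ^ 5) : FPr K' C4) = 1 := by
      have : (ib (b ^ 5) : FPr K' C4) = g⁻¹ * (g * ib (b ^ 5) * g⁻¹) * g := by group
      rw [this, h5]; group
    have h3 := c4_five b (ib_inj (h2.trans (map_one _).symm))
    apply hne
    rw [hg, h3]; simp

/-- Isomorphisms of free products with the cyclic group of order four which preserve the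
product of the generator and a central element of order five. -/
theorem free_iso {t : K} (ht : ∀ k, t * k = k * t)
    (ht5 : t ^ 5 = 1) (ht1 : t ≠ 1) {t' : K'} (ht' : ∀ k, t' * k = k * t')
    (ht5' : t' ^ 5 = 1) (ht1' : t' ≠ 1) (Φ : FPr K C4 ≃* FPr K' C4)
    (hm : CI (Φ (ib b4 * ia t)) (ib b4 * ia t')) :
    ∃ (γ : FPr K' C4) (ψ : K ≃* K') (y : C4), (y = b4 ∨ y = b4⁻¹) ∧
      (∀ k, Φ (ia k) = γ * ia (ψ k) * γ⁻¹) ∧ Φ (ib b4) = γ * ib y * γ⁻¹ := by
  have hT := treeAct (tr_inj (A := K') (B := C4))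
  obtain ⟨γ, hγ⟩ := fstep1 ht ht5 ht1 Φ
  obtain ⟨δ, hδ⟩ := fstep1 ht' ht5' ht1' Φ.symm
  let Φ1 : FPr K C4 ≃* FPr K' C4 := Φ.trans (MulAut.conj γ⁻¹)
  have hΦ1 : ∀ x, Φ1 x = γ⁻¹ * Φ x * γ := by
    intro x
    simp [Φ1]
  have hf0 : ∀ k, ∃ k', Φ1 (ia k) = ia k' := by
    intro k
    apply fp_stab_t.mp
    rw [hΦ1, mul_smul, mul_smul]
    have h1 := hγ k
    have h2 : γ • (vt true 1 : Vert (tr K' C4)) = vt true γ := by rw [smul_vt, mul_one]
    rw [h2, h1, ← h2, inv_smul_smul]
  choose f hf using hf0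
  have hΨ : ∀ x, Φ1.symm x = Φ.symm γ * Φ.symm x * (Φ.symm γ)⁻¹ := by
    intro x
    apply Φ1.injective
    rw [MulEquiv.apply_symm_apply, hΦ1, map_mul, map_mul, map_inv]
    simp only [MulEquiv.apply_symm_apply]
    group
  have hf0' : ∀ k, ∃ k', Φ1.symm (ia k) = ia k' := by
    have h1 : ∀ k, Φ1.symm (ia k) • (vt true (Φ.symm γ * δ) : Vert (tr K C4)) =
        vt true (Φ.symm γ * δ) := by
      intro k
      rw [hΨ, ← smul_vt, mul_smul, mul_smul, inv_smul_smul, hδ]
    have h2 : (vt true 1 : Vert (tr K C4)) = vt true (Φ.symm γ * δ) := by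
      have hne : (ia t : FPr K C4) ≠ 1 := fun h => ht1 (ia_inj (h.trans (map_one _).symm))
      apply fp_uniq hne (ia_vt t)
      have h3 : (ia t : FPr K C4) = Φ1.symm (ia (f t)) := by rw [← hf, MulEquiv.symm_apply_apply]
      rw [h3]; exact h1 _
    intro k
    apply fp_stab_t.mp
    rw [h2]; exact h1 k
  choose f' hf' using hf0'
  have hff : ∀ k, f' (f k) = k := by
    intro k
    apply ia_inj (B := C4)
    rw [← hf', ← hf, MulEquiv.symm_apply_apply]
  have hff' : ∀ k, f (f' k) = k := by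
    intro k
    apply ia_inj (B := C4)
    rw [← hf, ← hf', MulEquiv.apply_symm_apply]
  let ψ : K ≃* K' :=
    { toFun := f
      invFun := f'
      left_inv := hff
      right_inv := hff'
      map_mul' := by
        intro a b
        apply ia_inj (B := C4)
        rw [map_mul, ← hf, ← hf, ← hf, map_mul, map_mul] }
  -- the image of the generator of order four
  set Y := Φ1 (ib b4) with hY
  have hYb : rb Y ≠ 1 := by
    intro h
    have h1 : (rb.comp Φ1.toMonoidHom : FPr K C4 →* C4) = 1 := by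
      apply fp_ext
      · intro a
        change rb (Φ1 (ia a)) = 1
        rw [hf]; simp
      · intro b
        change rb (Φ1 (ib b)) = 1
        rw [zm_gen b, map_pow, map_pow, map_pow]
        change rb Y ^ _ = 1
        rw [h, one_pow]
    have h2 := DFunLike.congr_fun h1 (Φ1.symm (ib b4))
    simp only [MonoidHom.coe_comp, Function.comp_apply, MonoidHom.one_apply] at h2
    change rb (Φ1 (Φ1.symm (ib b4))) = 1 at h2
    rw [MulEquiv.apply_symm_apply, rb_ib] at h2
    exact b4_ne h2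
  have hY1 : Y ≠ 1 := fun h => hYb (by rw [h, map_one])
  have hY4 : Y ^ 4 = 1 := by rw [hY, ← map_pow, ← map_pow, b4_pow, map_one, map_one]
  obtain ⟨g, y, hg⟩ : ∃ (g : FPr K' C4) (y : C4), Y = g * ib y * g⁻¹ := by
    rcases fp_tors (n := 4) (by norm_num) hY4 with ⟨g, a, hg⟩ | ⟨g, b, hg⟩
    · exfalso
      apply hYb
      rw [hg]; simp
    · exact ⟨g, b, hg⟩
  set T := graph (tr K' C4) with hTd
  set v : Vert (tr K' C4) := vt true 1 with hv
  set p : Vert (tr K' C4) := vt false g with hp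
  have hYp : Y • p = p := by
    have : (vt false g : Vert (tr K' C4)) = g • vt false 1 := by rw [smul_vt, mul_one]
    rw [hg, hp, this, mul_smul, mul_smul, inv_smul_smul, ib_vt]
  set X : FPr K' C4 := ia (f t) with hX
  have hX1 : X ≠ 1 := by
    rw [hX, ← hf]
    intro h
    rw [MulEquiv.map_eq_one_iff] at h
    exact ht1 (ia_inj (h.trans (map_one _).symm))
  have hXv : X • v = v := ia_vt _
  have hYd : ∀ z, T.dist z (Y • z) = 2 * T.dist z p :=
    disp_eq hT hYp (fun y hy h => hY1 (fp_adj hy hYp h))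
  have hXd : ∀ z, T.dist z (X • z) = 2 * T.dist z v :=
    disp_eq hT hXv (fun y hy h => hX1 (fp_adj hy hXv h))
  -- the hyperbolic element
  set M := Y * X with hM
  have hMeq : M = Φ1 (ib b4 * ia t) := by rw [map_mul, hf]
  obtain ⟨c, hc⟩ : CI M (ib b4 * ia t') := by
    obtain ⟨c, hc⟩ := hm
    rw [hMeq, hΦ1]
    refine ⟨γ⁻¹ * c, ?_⟩
    rcases hc with hc | hc
    · left; rw [hc]; group
    · right; rw [hc]; group
  have hMa : ra M ≠ 1 := by
    intro h
    have h1 : t' = 1 := by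
      rcases hc with hc | hc
      · rw [hc] at h
        simp only [map_mul, map_inv, ra_ib, ra_ia, one_mul] at h
        have : t' = (ra c)⁻¹ * (ra c * t' * (ra c)⁻¹) * ra c := by group
        rw [this, h]; group
      · rw [hc] at h
        simp only [map_mul, map_inv, ra_ib, ra_ia, mul_inv_rev, inv_one, mul_one] at h
        have : t' = ((ra c)⁻¹ * (ra c * t'⁻¹ * (ra c)⁻¹) * ra c)⁻¹ := by group
        rw [this, h]; group
    exact ht1' h1
  have hMb : rb M ≠ 1 := by
    rw [hM, map_mul, hX, rb_ia, mul_one]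
    exact hYb
  obtain ⟨L, l, hax⟩ := hT.exists_axis (fp_nofix hMa hMb)
  have hw : T.Adj v (vt false 1) := adj_vt true 1
  have hd1 : T.dist v (vt false 1) = 1 := SimpleGraph.dist_eq_one_iff_adj.mpr hw
  have hbt : T.dist v ((ib b4 * ia t' : FPr K' C4) • v) ≤ 2 := by
    rw [mul_smul, hv, ia_vt, ← hv]
    have h1 := hT.isTree.connected.dist_triangle (u := v) (v := vt false 1)
      (w := (ib b4 : FPr K' C4) • v)
    have h2 : T.dist (vt false 1) ((ib b4 : FPr K' C4) • v) = 1 := by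
      conv_lhs => rw [← ib_vt b4]
      rw [hT.dist_smul, SimpleGraph.dist_comm, hd1]
    omega
  have hcM : T.dist (c • v) (M • c • v) ≤ 2 := by
    rcases hc with hc | hc
    · rw [hc, mul_smul, mul_smul, inv_smul_smul, hT.dist_smul]
      exact hbt
    · rw [hc, mul_smul, mul_smul, inv_smul_smul, hT.dist_smul, SimpleGraph.dist_comm,
        hT.dist_smul_left, inv_inv]
      exact hbt
  have htype : ∀ g : FPr K' C4, ∀ x : Vert (tr K' C4), (g • x).1 = x.1 := fun _ _ => rfl
  have hl : l = 2 := by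
    obtain ⟨k, _, h2⟩ := hT.proj_between hax (c • v)
    have h3 := hax.pos
    have h4 : l ≠ 1 := by
      rintro rfl
      have h5 := type_line hax.line 0
      have h6 := hax.smul 0
      have h7 := htype M (L 0)
      rw [h6] at h7
      push_cast at h7
      rw [zero_add] at h5
      rw [h5] at h7
      revert h7; cases (L 0).1 <;> simp
    omega
  subst hl
  obtain ⟨i, hi⟩ := hax.line.exists_proj hT.isTree v
  have hML : ∀ j, T.dist (M • v) (L j) = T.dist v (L (j - 2)) := by
    intro j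
    rw [hT.dist_smul_left]
    congr 1
    rw [inv_smul_eq_iff, hax.smul]
    congr 1; push_cast; ring
  have hMv : M • v = Y • v := by rw [hM, mul_smul, hXv]
  have hdv : T.dist v (M • v) = 2 * T.dist v p := by rw [hMv, hYd]
  have e1 : T.dist v (L (i + 1)) = T.dist v (L i) + 1 := by rw [hi (i + 1)]; omega
  have e2 : T.dist (M • v) (L (i + 1)) = T.dist v (L i) + 1 := by
    rw [hML, hi (i + 1 - 2)]; omega
  have e3 : T.dist v (M • v) = 2 * T.dist v (L i) + 2 := by
    obtain ⟨i', _, h2⟩ := hT.proj_between hax v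
    have h3 := hi i'
    have h4 := hT.isTree.connected.dist_triangle (u := v) (v := L (i + 1)) (w := M • v)
    rw [SimpleGraph.dist_comm (u := L (i + 1)), e1, e2] at h4
    omega
  have hpL : p = L (i + 1) := by
    have h1 : T.dist p (M • v) = T.dist v p := by
      rw [hMv]
      conv_lhs => rw [← hYp]
      rw [hT.dist_smul, SimpleGraph.dist_comm]
    apply geod_unique hT.isTree (x := v) (y := M • v)
    · rw [h1, hdv]; ring
    · rw [SimpleGraph.dist_comm (u := L (i + 1)), e1, e2, e3]; ring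
    · rw [e1]; omega
  have hN : T.dist v p = 1 := by
    have h1 : T.dist p (M • p) = 2 := by
      rw [hpL, hax.smul, hax.line.dist hT.isTree]
      push_cast
      omega
    have h2 : T.dist p (M • p) = T.dist p (X • p) := by
      rw [hM, mul_smul]
      conv_lhs => rw [← hYp]
      rw [hT.dist_smul]
      conv_lhs => rw [hYp]
    rw [h2, hXd, SimpleGraph.dist_comm] at h1
    omega
  -- the vertex is a neighbour
  obtain ⟨j, g', hg1, hg2⟩ := SimpleGraph.dist_eq_one_iff_adj.mp hN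
  have hj : j = true := (congrArg Sigma.fst hg1).symm
  subst hj
  obtain ⟨κ, hκ⟩ := vt_eq_iff.mp hg1
  change K' at κ
  change 1 * ia κ = g' at hκ
  rw [one_mul] at hκ
  have hYκ : ((ia κ)⁻¹ * Y * ia κ : FPr K' C4) • (vt false 1 : Vert (tr K' C4)) = vt false 1 := by
    have h1 : (ia κ : FPr K' C4) • (vt false 1 : Vert (tr K' C4)) = p := by
      rw [smul_vt, mul_one, hg2, ← hκ]
      rfl
    rw [mul_smul, mul_smul, h1, hYp, ← h1, inv_smul_smul]
  obtain ⟨y', hy'⟩ := fp_stab_f.mp hYκ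
  have hYe : Y = ia κ * ib y' * (ia κ)⁻¹ := by rw [← hy']; group
  have hy2 : y' * y' ≠ 1 := by
    intro h
    have h1 : (rb.comp Φ1.toMonoidHom : FPr K C4 →* C4) =
        (zmHom (M := C4) (n := 4) y' (c4_sq _ h)).comp rb := by
      apply fp_ext
      · intro a
        change rb (Φ1 (ia a)) = _
        rw [hf]; simp
      · intro b
        change rb (Φ1 (ib b)) = _
        rw [zm_gen b]
        simp only [map_pow, MonoidHom.coe_comp, Function.comp_apply, rb_ib]
        change rb Y ^ _ = _ ^ _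
        rw [hYe]
        congr 1
        rw [map_mul, map_mul, map_inv, rb_ia, rb_ib]
        simp [zmHom_one]
    have h2 := DFunLike.congr_fun h1 (Φ1.symm (ib b4))
    simp only [MonoidHom.coe_comp, Function.comp_apply] at h2
    change rb (Φ1 (Φ1.symm (ib b4))) = _ at h2
    rw [MulEquiv.apply_symm_apply, rb_ib] at h2
    have h3 : b4 * b4 = 1 := by
      rw [h2, ← map_mul]
      have h4 : ∀ c : C4, ∃ n : ℕ, c = b4 ^ n := fun c => ⟨_, zm_gen c⟩
      obtain ⟨n, hn⟩ := h4 (rb (Φ1.symm (ib b4)))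
      rw [hn, ← pow_add, map_pow]
      have : zmHom (M := C4) (n := 4) y' (c4_sq _ h) b4 = y' :=
        zmHom_one _ _
      rw [this, ← two_mul, pow_mul, pow_two, h, one_pow]
    revert h3
    decide
  have hy3 : ∀ y : C4, y * y ≠ 1 → y = b4 ∨ y = b4⁻¹ := by decide
  refine ⟨γ * ia κ, (ψ.trans (MulAut.conj κ⁻¹)), y', hy3 y' hy2, fun k => ?_, ?_⟩
  · have h1 : Φ (ia k) = γ * Φ1 (ia k) * γ⁻¹ := by rw [hΦ1]; group
    rw [h1, hf]
    change γ * ia (ψ k) * γ⁻¹ = γ * ia κ * ia (κ⁻¹ * ψ k * (κ⁻¹)⁻¹) * (γ * ia κ)⁻¹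
    rw [inv_inv, map_mul, map_mul, map_inv]
    group
  · have h1 : Φ (ib b4) = γ * Y * γ⁻¹ := by rw [hY, hΦ1]; group
    rw [h1, hYe]
    group

end A1

end Pool.Agent.H361.AM
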