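import Mathlib
import Pool.Agent.H361.AM.Mark

set_option autoImplicit false

/-!
# Exact marking
-/

namespace Pool.Agent.H361.AM

variable {K K' : Type} [Group K] [Group K']

theorem CI.refl {M : Type} [Group M] (x : M) : CI x x := ⟨1, Or.inl (by simp)⟩

theorem CI.map {M N : Type} [Group M] [Group N] (f : M →* N) {x y : M} (h : CI x y) :
    CI (f x) (f y) := by
  obtain ⟨c, hc⟩ := h
  refine ⟨f c, ?_⟩
  rcases hc with hc | hc
  · left; rw [hc]; simp
  · right; rw [hc]; simp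

theorem CI.symm {M : Type} [Group M] {x y : M} (h : CI x y) : CI y x := by
  obtain ⟨c, hc⟩ := h
  refine ⟨c⁻¹, ?_⟩
  rcases hc with hc | hc
  · left; rw [hc]; group
  · right; rw [hc]; group

theorem CI.conj {M : Type} [Group M] {x y : M} (h : CI x y) (g : M) : CI (g * x * g⁻¹) y := by
  obtain ⟨c, hc⟩ := h
  refine ⟨g * c, ?_⟩
  rcases hc with hc | hc
  · left; rw [hc]; group
  · right; rw [hc]; group

theorem b4_inv : b4 ≠ b4⁻¹ := by decide

theorem one_mark {Φ : FPr K C4 ≃* FPr K' C4} {γ : FPr K' C4} {ψ : K ≃* K'} {y : C4}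
    (h1 : ∀ k, Φ (ia k) = γ * ia (ψ k) * γ⁻¹) (h2 : Φ (ib b4) = γ * ib y * γ⁻¹)
    {k : K} {k' : K'} (hk : k ≠ 1) (hk' : k' ≠ 1) (h : CI (Φ (ib b4 * ia k)) (ib b4 * ia k')) :
    (y = b4 → ψ k = k') ∧ (y = b4⁻¹ → ψ k = k'⁻¹) := by
  have hψ : ψ k ≠ 1 := fun h => hk ((MulEquiv.map_eq_one_iff _).mp h)
  obtain ⟨c, hc⟩ := h
  rw [map_mul, h1, h2] at hc
  have e0 : γ * ib y * γ⁻¹ * (γ * ia (ψ k) * γ⁻¹) = γ * (ib y * ia (ψ k)) * γ⁻¹ := by group
  rw [e0] at hc
  have hr : (y = b4 ∧ γ * (ib y * ia (ψ k)) * γ⁻¹ = c * (ib b4 * ia k') * c⁻¹) ∨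
      (y = b4⁻¹ ∧ γ * (ib y * ia (ψ k)) * γ⁻¹ = c * (ib b4 * ia k')⁻¹ * c⁻¹) := by
    rcases hc with hc | hc
    · left
      refine ⟨?_, hc⟩
      have := congrArg rb hc
      simp only [map_mul, map_inv, rb_ia, rb_ib, mul_one] at this
      rw [mul_comm (rb γ), mul_inv_cancel_right, mul_comm (rb c), mul_inv_cancel_right] at this
      exact this
    · right
      refine ⟨?_, hc⟩
      have := congrArg rb hc
      simp only [map_mul, map_inv, rb_ia, rb_ib, mul_one] at this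
      rw [mul_comm (rb γ), mul_inv_cancel_right, mul_comm (rb c), mul_inv_cancel_right] at this
      exact this
  constructor
  · intro hy
    rcases hr with ⟨_, hr⟩ | ⟨hy', _⟩
    · subst hy
      apply conj_one_letter hψ hk' (h := γ⁻¹ * c)
      have : ib b4 * ia (ψ k) = γ⁻¹ * (γ * (ib b4 * ia (ψ k)) * γ⁻¹) * γ := by group
      rw [this, hr]; group
    · exact absurd (hy.symm.trans hy') b4_inv
  · intro hy
    rcases hr with ⟨hy', _⟩ | ⟨_, hr⟩
    · exact absurd (hy'.symm.trans hy) b4_inv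
    · subst hy
      have h3 : (ψ k)⁻¹ = k' := by
        apply conj_one_letter (inv_ne_one.mpr hψ) hk' (h := ia (ψ k) * γ⁻¹ * c)
        have e1 : ib b4 * ia (ψ k)⁻¹ =
            ia (ψ k) * (γ⁻¹ * (γ * (ib b4⁻¹ * ia (ψ k)) * γ⁻¹) * γ)⁻¹ * (ia (ψ k))⁻¹ := by
          rw [map_inv, map_inv]; group
        rw [e1, hr]; group
      rw [← h3, inv_inv]

/-- Cancelling a direct factor of order five. -/
theorem quot5 {G G' : Type} [Group G] [Group G'] (ψ : G × C5 ≃* G' × C5)
    (h1 : ∀ c : C5, (ψ (1, c)).1 = 1) (h2 : ∀ c : C5, (ψ.symm (1, c)).1 = 1) :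
    ∃ e : G ≃* G', ∀ x : G × C5, e x.1 = (ψ x).1 := by
  have key : ∀ (x : G × C5), (ψ x).1 = (ψ (x.1, 1)).1 := by
    intro x
    have : x = (x.1, 1) * (1, x.2) := by ext <;> simp
    conv_lhs => rw [this, map_mul]
    rw [Prod.fst_mul, h1, mul_one]
  have key' : ∀ (x : G' × C5), (ψ.symm x).1 = (ψ.symm (x.1, 1)).1 := by
    intro x
    have : x = (x.1, 1) * (1, x.2) := by ext <;> simp
    conv_lhs => rw [this, map_mul]
    rw [Prod.fst_mul, h2, mul_one]
  refine ⟨{ toFun := fun g => (ψ (g, 1)).1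
            invFun := fun g => (ψ.symm (g, 1)).1
            left_inv := ?_
            right_inv := ?_
            map_mul' := ?_ }, fun x => (key x).symm⟩
  · intro g
    change (ψ.symm ((ψ (g, 1)).1, 1)).1 = g
    rw [← key', MulEquiv.symm_apply_apply]
  · intro g
    change (ψ ((ψ.symm (g, 1)).1, 1)).1 = g
    rw [← key, MulEquiv.apply_symm_apply]
  · intro a b
    rw [← Prod.fst_mul, ← map_mul]
    simp

theorem tc {G : Type} [Group G] : ∀ k : G × C5, ((1, t5) : G × C5) * k = k * (1, t5) := by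
  intro k
  ext
  · simp
  · simp only [Prod.snd_mul]; exact mul_comm (t5 : C5) k.2

theorem tp {G : Type} [Group G] : ((1, t5) : G × C5) ^ 5 = 1 := by
  rw [Prod.pow_mk, one_pow, t5_pow]; rfl

theorem tn {G : Type} [Group G] (u : G) : ((u, t5) : G × C5) ≠ 1 := by
  intro h
  exact t5_ne (congrArg Prod.snd h)

/-- **Exact marking.** -/
theorem exact_core {G G' : Type} [Group G] [Group G']
    (Φ : FPr (G × C5) C4 ≃* FPr (G' × C5) C4)
    (h0 : CI (Φ (chi (ib b4) (ia (1, t5)))) (chi (ib b4) (ia (1, t5))))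
    (h1 : CI (Φ (ib b4 * ia (1, t5))) (ib b4 * ia (1, t5))) :
    ∃ e : G ≃* G', ∀ u u', CI (Φ (ib b4 * ia (u, t5))) (ib b4 * ia (u', t5)) → e u = u' := by
  obtain ⟨γ, ψ, y, hy, hk, hb⟩ := free_iso tc tp (tn 1) tc tp (tn 1) Φ h1
  have m1 := one_mark hk hb (tn 1) (tn 1) h1
  rcases hy with hy | hy
  · have e1 : ψ (1, t5) = (1, t5) := m1.1 hy
    have e2 : ∀ u u', CI (Φ (ib b4 * ia (u, t5))) (ib b4 * ia (u', t5)) →
        ψ (u, t5) = (u', t5) := fun u u' h2 =>
      (one_mark hk hb (tn _) (tn _) h2).1 hy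
    have p1 : ∀ c : C5, (ψ (1, c)).1 = 1 := by
      intro c
      have : ((1, c) : G × C5) = (1, t5) ^ (Multiplicative.toAdd c).val := by
        rw [Prod.pow_mk, one_pow]
        congr 1
        exact zm_gen c
      rw [this, map_pow, e1, Prod.pow_mk, one_pow]
    have p2 : ∀ c : C5, (ψ.symm (1, c)).1 = 1 := by
      intro c
      have : ((1, c) : G' × C5) = (1, t5) ^ (Multiplicative.toAdd c).val := by
        rw [Prod.pow_mk, one_pow]
        congr 1
        exact zm_gen c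
      rw [this, map_pow, ← e1, MulEquiv.symm_apply_apply, Prod.pow_mk, one_pow]
    obtain ⟨e, he⟩ := quot5 ψ p1 p2
    refine ⟨e, fun u u' h2 => ?_⟩
    have := he (u, t5)
    rw [e2 u u' h2] at this
    exact this
  · exfalso
    have e1 : ψ (1, t5) = (1, t5)⁻¹ := m1.2 hy
    let ρ : FPr (G' × C5) C4 →* Equiv.Perm (Fin 6) :=
      fpl ((zmHom pt pt_pow).comp (MonoidHom.snd G' C5)) (zmHom pb pb_pow)
    have r1 : ρ (ib b4) = pb := by
      simp only [ρ, fpl_ib]; exact zmHom_one _ _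
    have r2 : ρ (ia (1, t5)) = pt := by
      simp only [ρ, fpl_ia, MonoidHom.coe_comp, Function.comp_apply, MonoidHom.coe_snd]
      exact zmHom_one _ _
    obtain ⟨c, hc⟩ := h0
    have e3 : Φ (chi (ib b4) (ia (1, t5))) =
        γ * chi (ib b4 : FPr (G' × C5) C4)⁻¹ (ia (1, t5))⁻¹ * γ⁻¹ := by
      have := map_chi Φ.toMonoidHom (ib b4 : FPr (G × C5) C4) (ia (1, t5))
      change Φ _ = chi (Φ (ib b4)) (Φ (ia (1, t5))) at this
      rw [this, hk, hb, hy, e1, map_inv, map_inv]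
      simp only [chi]
      group
    rw [e3] at hc
    apply chiral ρ rb r1 r2 (rb_ib _) (rb_ia _) (h := γ⁻¹ * c)
    rcases hc with hc | hc
    · left
      have : chi (ib b4 : FPr (G' × C5) C4)⁻¹ (ia (1, t5))⁻¹ =
        γ⁻¹ * (γ * chi (ib b4 : FPr (G' × C5) C4)⁻¹ (ia (1, t5))⁻¹ * γ⁻¹) * γ := by group
      rw [this, hc]; group
    · right
      have : chi (ib b4 : FPr (G' × C5) C4)⁻¹ (ia (1, t5))⁻¹ =
        γ⁻¹ * (γ * chi (ib b4 : FPr (G' × C5) C4)⁻¹ (ia (1, t5))⁻¹ * γ⁻¹) * γ := by group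
      rw [this, hc]; group

/-- Trivial centre. -/
def Cls (G : Type) [Group G] : Prop := ∀ z : G, (∀ g : G, z * g = g * z) → z = 1

theorem fp_cls {A B : Type} [Group A] [Group B] {a : A} {b : B} (ha : a ≠ 1) (hb : b ≠ 1) :
    Cls (FPr A B) := by
  intro z hz
  have hia : (ia a : FPr A B) ≠ 1 := fun h => ha (ia_inj (h.trans (map_one _).symm))
  have hib : (ib b : FPr A B) ≠ 1 := fun h => hb (ib_inj (h.trans (map_one _).symm))
  have h1 : z • (vt true 1 : Vert (tr A B)) = vt true 1 := by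
    symm
    apply fp_uniq hia (ia_vt a)
    rw [← mul_smul, ← hz, mul_smul, ia_vt]
  have h2 : z • (vt false 1 : Vert (tr A B)) = vt false 1 := by
    symm
    apply fp_uniq hib (ib_vt b)
    rw [← mul_smul, ← hz, mul_smul, ib_vt]
  exact fp_adj (adj_vt true 1) h1 h2

theorem am_cls {K : Type} [Group K] {s : K} (hs : InfOrd s) : Cls (Am K s) := by
  intro z hz
  have hne : ik s s ≠ 1 := fun h => hs.ne_one (ik_inj hs (h.trans (map_one _).symm))
  have h1 : z • (vt true 1 : Vert (edge K s)) = vt true 1 := by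
    symm
    apply unique_fix (edge_inj hs) (edge_mal s) hne rfl rfl (stab_k.mpr ⟨s, rfl⟩)
    rw [← mul_smul, ← hz, mul_smul, stab_k.mpr ⟨s, rfl⟩]
  by_contra hz1
  have h2 : (vt true 1 : Vert (edge K s)) = ih s (ia a2) • vt true 1 := by
    apply unique_fix (edge_inj hs) (edge_mal s) hz1 rfl rfl h1
    rw [← mul_smul, hz, mul_smul, h1]
  obtain ⟨k, hk⟩ := stab_k.mp h2.symm
  exact a2_not hs k hk

theorem InfOrd.prod {G : Type} [Group G] {s : G} (h : InfOrd s) : InfOrd ((s, 1) : G × C5) := by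
  intro n hn he
  rw [Prod.pow_mk] at he
  exact h n hn (congrArg Prod.fst he)

/-- **Peeling.** -/
theorem peel {Λ Λ' : Type} [Group Λ] [Group Λ'] (hc : Cls Λ) (hc' : Cls Λ') {s : Λ} {s' : Λ'}
    (hs : InfOrd s) (hs' : InfOrd s')
    (Φ : Am (Λ × C5) (s, 1) ≃* Am (Λ' × C5) (s', 1)) :
    ∃ e : Λ ≃* Λ', CI (e s) s' ∧ ∀ a a', a' ≠ 1 →
      CI (Φ (ik (s, 1) (a, 1))) (ik (s', 1) (a', 1)) → CI (e a) a' := by
  obtain ⟨γ, ψ, hψ, κ, hκ⟩ := sgt hs.prod hs'.prod tc tp (tn 1) tc tp (tn 1) Φ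
  have cen : ∀ {A B : Type} [Group A] [Group B] (ψ : A × C5 ≃* B × C5), Cls B →
      ∀ c : C5, (ψ (1, c)).1 = 1 := by
    intro A B _ _ ψ hB c
    apply hB
    intro g
    have h1 : ((1, c) : A × C5) * ψ.symm (g, 1) = ψ.symm (g, 1) * (1, c) := by
      ext
      · simp
      · simp only [Prod.snd_mul]; exact mul_comm (c : C5) _
    have h2 := congrArg ψ h1
    rw [map_mul, map_mul, MulEquiv.apply_symm_apply] at h2
    exact congrArg Prod.fst h2
  obtain ⟨e, he⟩ := quot5 ψ (cen ψ hc') (cen ψ.symm hc)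
  have tr1 : ∀ (a : Λ) (a' : Λ') (k : Λ' × C5), (ψ (a, 1) = k * (a', 1) * k⁻¹ ∨
      ψ (a, 1) = k * (a', 1)⁻¹ * k⁻¹) → CI (e a) a' := by
    intro a a' k h
    refine ⟨k.1, ?_⟩
    rw [he (a, 1)]
    rcases h with h | h
    · left; rw [h]; rfl
    · right; rw [h]; rfl
  refine ⟨e, tr1 s s' κ hκ, fun a a' ha' h => ?_⟩
  obtain ⟨c, hc⟩ := h
  rw [hψ] at hc
  have hne : ik (s', 1) (ψ (a, 1)) ≠ 1 := by
    intro h1
    apply ha'
    rw [h1] at hc
    rcases hc with hc | hc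
    · have : ik (s', (1 : C5)) (a', 1) = 1 := by
        have e1 : ik (s', (1 : C5)) (a', 1) = c⁻¹ * (c * ik (s', 1) (a', 1) * c⁻¹) * c := by group
        rw [e1, ← hc]; group
      exact congrArg Prod.fst (ik_inj hs'.prod (this.trans (map_one _).symm))
    · have : ik (s', (1 : C5)) (a', 1) = 1 := by
        have e1 : ik (s', (1 : C5)) (a', 1) =
            (c⁻¹ * (c * (ik (s', 1) (a', 1))⁻¹ * c⁻¹) * c)⁻¹ := by group
        rw [e1, ← hc]; group
      exact congrArg Prod.fst (ik_inj hs'.prod (this.trans (map_one _).symm))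
  have h2 : (γ⁻¹ * c) • (vt true 1 : Vert (edge (Λ' × C5) (s', 1))) = vt true 1 := by
    symm
    apply unique_fix (edge_inj hs'.prod) (edge_mal _) hne rfl rfl (stab_k.mpr ⟨_, rfl⟩)
    have h3 : (ik (s', (1 : C5)) (a', 1)) • (vt true 1 : Vert (edge (Λ' × C5) (s', 1))) =
      vt true 1 := stab_k.mpr ⟨_, rfl⟩
    rcases hc with hc | hc
    · have e1 : ik (s', (1 : C5)) (ψ (a, 1)) =
          γ⁻¹ * c * ik (s', 1) (a', 1) * (γ⁻¹ * c)⁻¹ := by
        have : ik (s', (1 : C5)) (ψ (a, 1)) =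
          γ⁻¹ * (γ * ik (s', 1) (ψ (a, 1)) * γ⁻¹) * γ := by group
        rw [this, hc]; group
      rw [e1, mul_smul, mul_smul, inv_smul_smul, h3]
    · have e1 : ik (s', (1 : C5)) (ψ (a, 1)) =
          γ⁻¹ * c * (ik (s', 1) (a', 1))⁻¹ * (γ⁻¹ * c)⁻¹ := by
        have : ik (s', (1 : C5)) (ψ (a, 1)) =
          γ⁻¹ * (γ * ik (s', 1) (ψ (a, 1)) * γ⁻¹) * γ := by group
        rw [this, hc]; group
      rw [e1, mul_smul, mul_smul, inv_smul_smul]
      congr 1
      rw [inv_smul_eq_iff, h3]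
  obtain ⟨k, hk⟩ := stab_k.mp h2
  apply tr1 a a' k
  rcases hc with hc | hc
  · left
    apply ik_inj hs'.prod
    rw [map_mul, map_mul, map_inv, ← hk]
    have : ik (s', (1 : C5)) (ψ (a, 1)) =
      γ⁻¹ * (γ * ik (s', 1) (ψ (a, 1)) * γ⁻¹) * γ := by group
    rw [this, hc]; group
  · right
    apply ik_inj hs'.prod
    rw [map_mul, map_mul, map_inv, map_inv, ← hk]
    have : ik (s', (1 : C5)) (ψ (a, 1)) =
      γ⁻¹ * (γ * ik (s', 1) (ψ (a, 1)) * γ⁻¹) * γ := by group
    rw [this, hc]; group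

/-- Functoriality of the amalgam. -/
theorem am_map {K K' : Type} [Group K] [Group K'] {s : K} {s' : K'} (e : K ≃* K') (h : e s = s') :
    ∃ F : Am K s ≃* Am K' s', (∀ k, F (ik s k) = ik s' (e k)) ∧ ∀ k, F (ih s k) = ih s' k := by
  have h' : e.symm s' = s := by rw [← h, MulEquiv.symm_apply_apply]
  let F : Am K s →* Am K' s' := aml s ((ik s').comp e.toMonoidHom) (ih s') (by
    change ik s' (e s) = _
    rw [h, ik_s])
  let F' : Am K' s' →* Am K s := aml s' ((ik s).comp e.symm.toMonoidHom) (ih s) (by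
    change ik s (e.symm s') = _
    rw [h', ik_s])
  refine ⟨MonoidHom.toMulEquiv F F' ?_ ?_, fun k => ?_, fun k => ?_⟩
  · apply am_ext
    · intro a; simp [F, F']
    · intro a; simp [F, F']
  · apply am_ext
    · intro a; simp [F, F']
    · intro a; simp [F, F']
  · simp [F]
  · simp [F]

/-- Functoriality of the free product. -/
theorem fp_map {A A' B : Type} [Group A] [Group A'] [Group B] (e : A ≃* A') :
    ∃ F : FPr A B ≃* FPr A' B, (∀ k, F (ia k) = ia (e k)) ∧ ∀ k, F (ib k) = ib k := by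
  let F : FPr A B →* FPr A' B := fpl (ia.comp e.toMonoidHom) ib
  let F' : FPr A' B →* FPr A B := fpl (ia.comp e.symm.toMonoidHom) ib
  refine ⟨MonoidHom.toMulEquiv F F' ?_ ?_, fun k => ?_, fun k => ?_⟩
  · apply fp_ext
    · intro a; simp [F, F']
    · intro a; simp [F, F']
  · apply fp_ext
    · intro a; simp [F, F']
    · intro a; simp [F, F']
  · simp [F]
  · simp [F]

/-- **Conjugates of tuples.** -/
theorem mixed_core {G G' F F' : Type} [Group G] [Group G'] [Group F] [Group F']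
    (Φ : FPr (G × C5) F ≃* FPr (G' × C5) F') (h0 : Φ (ia (1, t5)) = ia (1, t5)) :
    ∃ e : G ≃* G', ∀ x y, ∃ h : G', ∀ u u', Φ (ib x * ia (u, 1) * (ib x)⁻¹) =
      ib y * ia (u', 1) * (ib y)⁻¹ → h * e u * h⁻¹ = u' := by
  have hf0 : ∀ {G G' F F' : Type} [Group G] [Group G'] [Group F] [Group F']
      (Φ : FPr (G × C5) F ≃* FPr (G' × C5) F'), Φ (ia (1, t5)) = ia (1, t5) →
      ∀ k, ∃ k', Φ (ia k) = ia k' := by
    intro G G' F F' _ _ _ _ Φ h0 k
    have hne : (ia (1, t5) : FPr (G' × C5) F') ≠ 1 := fun h =>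
      tn (1 : G') (ia_inj (h.trans (map_one _).symm))
    apply fp_stab_t.mp
    symm
    apply fp_uniq hne (ia_vt _)
    rw [← mul_smul, ← h0, ← map_mul, ← map_mul, tc, map_mul, map_mul, mul_smul, h0, ia_vt]
  have h0' : Φ.symm (ia (1, t5)) = ia (1, t5) := by rw [← h0, MulEquiv.symm_apply_apply]
  choose f hf using hf0 Φ h0
  choose f' hf' using hf0 Φ.symm h0'
  have hff : ∀ k, f' (f k) = k := by
    intro k
    apply ia_inj (B := F)
    rw [← hf', ← hf, MulEquiv.symm_apply_apply]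
  have hff' : ∀ k, f (f' k) = k := by
    intro k
    apply ia_inj (B := F')
    rw [← hf, ← hf', MulEquiv.apply_symm_apply]
  let ψ : G × C5 ≃* G' × C5 :=
    { toFun := f
      invFun := f'
      left_inv := hff
      right_inv := hff'
      map_mul' := by
        intro a b
        apply ia_inj (B := F')
        rw [map_mul, ← hf, ← hf, ← hf, map_mul, map_mul] }
  have hψt : ψ (1, t5) = (1, t5) := ia_inj (B := F') ((hf _).symm.trans h0)
  have p1 : ∀ c : C5, (ψ (1, c)).1 = 1 := by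
    intro c
    have : ((1, c) : G × C5) = (1, t5) ^ (Multiplicative.toAdd c).val := by
      rw [Prod.pow_mk, one_pow]
      congr 1
      exact zm_gen c
    rw [this, map_pow, hψt, Prod.pow_mk, one_pow]
  have p2 : ∀ c : C5, (ψ.symm (1, c)).1 = 1 := by
    intro c
    have : ((1, c) : G' × C5) = (1, t5) ^ (Multiplicative.toAdd c).val := by
      rw [Prod.pow_mk, one_pow]
      congr 1
      exact zm_gen c
    rw [this, map_pow, ← hψt, MulEquiv.symm_apply_apply, Prod.pow_mk, one_pow]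
  obtain ⟨e, he⟩ := quot5 ψ p1 p2
  refine ⟨e, fun x y => ⟨(ra (Φ (ib x))).1, fun u u' h => ?_⟩⟩
  have h1 := congrArg ra h
  simp only [map_mul, map_inv, ra_ib, ra_ia, one_mul, inv_one, mul_one] at h1
  rw [hf, ra_ia] at h1
  have h2 := congrArg Prod.fst h1
  rw [he (u, 1)]
  exact h2

/-- The converse construction. -/
theorem mixed_conv {G G' : Type} [Group G] [Group G'] {ι : Type} (e : G ≃* G') (h : ι → G') :
    ∃ Φ : FPr (G × C5) (FreeGroup ι) ≃* FPr (G' × C5) (FreeGroup ι),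
      (∀ g c, Φ (ia (g, c)) = ia (e g, c)) ∧
      ∀ i, Φ (ib (FreeGroup.of i)) = ib (FreeGroup.of i) * ia (h i, 1) := by
  let e1 : G × C5 ≃* G' × C5 := MulEquiv.prodCongr e (MulEquiv.refl _)
  have he1 : ∀ x c, e1 (x, c) = (e x, c) := fun _ _ => rfl
  have he1' : ∀ x c, e1.symm (x, c) = (e.symm x, c) := fun _ _ => rfl
  let F : FPr (G × C5) (FreeGroup ι) →* FPr (G' × C5) (FreeGroup ι) :=
    fpl (ia.comp e1.toMonoidHom) (FreeGroup.lift fun i => ib (FreeGroup.of i) * ia (h i, 1))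
  let F' : FPr (G' × C5) (FreeGroup ι) →* FPr (G × C5) (FreeGroup ι) :=
    fpl (ia.comp e1.symm.toMonoidHom)
      (FreeGroup.lift fun i => ib (FreeGroup.of i) * ia (e.symm (h i)⁻¹, 1))
  refine ⟨MonoidHom.toMulEquiv F F' ?_ ?_, fun g c => ?_, fun i => ?_⟩
  · apply fp_ext
    · intro a; simp [F, F']
    · intro a
      have : (F'.comp F).comp ib = (MonoidHom.id _).comp ib := by
        apply FreeGroup.ext_hom
        intro i
        simp only [MonoidHom.comp_apply, F, F', fpl_ib, FreeGroup.lift_apply_of, map_mul, fpl_ia,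
          MonoidHom.id_apply]
        change ib _ * ia (e.symm (h i)⁻¹, 1) * ia (e1.symm (h i, 1)) = _
        rw [mul_assoc, ← map_mul, he1']
        simp only [map_inv, Prod.mk_mul_mk, inv_mul_cancel, mul_one]
        rw [← Prod.one_eq_mk, map_one, mul_one]
      exact DFunLike.congr_fun this a
  · apply fp_ext
    · intro a; simp [F, F']
    · intro a
      have : (F.comp F').comp ib = (MonoidHom.id _).comp ib := by
        apply FreeGroup.ext_hom
        intro i
        simp only [MonoidHom.comp_apply, F, F', fpl_ib, FreeGroup.lift_apply_of, map_mul, fpl_ia,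
          MonoidHom.id_apply]
        change ib _ * ia (h i, 1) * ia (e1 (e.symm (h i)⁻¹, 1)) = _
        rw [mul_assoc, ← map_mul, he1]
        simp only [map_inv, Prod.mk_mul_mk, MulEquiv.apply_symm_apply, mul_inv_cancel, mul_one]
        rw [← Prod.one_eq_mk, map_one, mul_one]
      exact DFunLike.congr_fun this a
  · change F (ia (g, c)) = _
    simp only [F, fpl_ia]
    rfl
  · simp [F]

end Pool.Agent.H361.AM
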