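import Mathlib
import Pool.Agent.H361.AM.Core
import Pool.Graph.R_pool_sql_team_seeded_3997aac3.Q223.IS.Code

set_option autoImplicit false

/-!
# Presentations
-/

namespace Pool.Agent.H361.AM

open Pool.Agent.Q223.IS

/-- Codes of finite presentations. -/
abbrev Pres : Type := ℕ × List Wd

/-- Delete the letters with index at least `n`. -/
def cut (n : ℕ) (w : Wd) : Wd := w.filter (fun q => decide (q.1 < n))

/-- All letters have index less than `n`. -/
def Lt (n : ℕ) (w : Wd) : Prop := ∀ a ∈ w, a.1 < n

theorem Lt.mono {n m : ℕ} {w : Wd} (h : Lt n w) (hnm : n ≤ m) : Lt m w :=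
  fun a ha => (h a ha).trans_le hnm

theorem lt_cut (n : ℕ) (w : Wd) : Lt n (cut n w) := by
  intro a ha
  have := (List.mem_filter.mp ha).2
  simpa using this

theorem cut_of_lt {n : ℕ} {w : Wd} (h : Lt n w) : cut n w = w := by
  unfold cut
  rw [List.filter_eq_self]
  intro a ha
  simpa using h a ha

theorem Lt.append {n : ℕ} {u v : Wd} (hu : Lt n u) (hv : Lt n v) : Lt n (u ++ v) := by
  intro a ha
  rcases List.mem_append.mp ha with h | h
  · exact hu a h
  · exact hv a h

theorem Lt.cons {n : ℕ} {a : ℕ × Bool} {v : Wd} (ha : a.1 < n) (hv : Lt n v) : Lt n (a :: v) := by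
  intro b hb
  rcases List.mem_cons.mp hb with h | h
  · rw [h]; exact ha
  · exact hv b h

theorem Lt.nil {n : ℕ} : Lt n [] := fun a ha => absurd ha (by simp)

theorem ev_eq_one {M : Type} [Group M] {x : ℕ → M} {q : ℕ × Bool} (h : x q.1 = 1) :
    ev x [q] = 1 := by
  obtain ⟨i, b⟩ := q
  change x i = 1 at h
  cases b
  · have : ([(i, false)] : Wd) = FreeGroup.invRev [(i, true)] := rfl
    rw [this, ev_inv, ev_true, h, inv_one]
  · rw [ev_true, h]

theorem ev_eq_of {M : Type} [Group M] {x y : ℕ → M} {q : ℕ × Bool} (h : x q.1 = y q.1) :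
    ev x [q] = ev y [q] := by
  obtain ⟨i, b⟩ := q
  change x i = y i at h
  cases b
  · have : ([(i, false)] : Wd) = FreeGroup.invRev [(i, true)] := rfl
    rw [this, ev_inv, ev_inv, ev_true, ev_true, h]
  · rw [ev_true, ev_true, h]

theorem ev_lt {M : Type} [Group M] {x y : ℕ → M} {n : ℕ} (h : ∀ i < n, x i = y i) {w : Wd}
    (hw : Lt n w) : ev x w = ev y w := by
  induction w with
  | nil => rw [ev_nil, ev_nil]
  | cons q w ih =>
    rw [ev_cons, ev_cons y, ih (fun a ha => hw a (List.mem_cons_of_mem _ ha)),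
      ev_eq_of (h q.1 (hw q List.mem_cons_self))]

theorem ev_cutn {M : Type} [Group M] {x : ℕ → M} {n : ℕ} (h : ∀ i, n ≤ i → x i = 1) (w : Wd) :
    ev x (cut n w) = ev x w := by
  induction w with
  | nil => rfl
  | cons q w ih =>
    by_cases hq : q.1 < n
    · have : cut n (q :: w) = q :: cut n w := by simp [cut, hq]
      rw [this, ev_cons, ev_cons x q w, ih]
    · have : cut n (q :: w) = cut n w := by simp [cut, hq]
      rw [this, ev_cons x q w, ih, ev_eq_one (h q.1 (not_lt.mp hq)), one_mul]

theorem ev_gen_cut (p : Pres) (w : Wd) : ev (gen p) (cut p.1 w) = ev (gen p) w :=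
  ev_cutn (fun _ hi => gen_big p hi) w

/-- Extension of a presentation by `k` generators and the relators `R`. -/
def ext (p : Pres) (k : ℕ) (R : List Wd) : Pres := (p.1 + k, p.2.map (cut p.1) ++ R)

theorem ext_emb (p : Pres) (k : ℕ) (R : List Wd) :
    ∃ j : PG p →* PG (ext p k R), ∀ i < p.1, j (gen p i) = gen (ext p k R) i := by
  obtain ⟨j, hj⟩ := PG_lift p (fun i => if i < p.1 then gen (ext p k R) i else 1)
    (fun i hi => if_neg (not_lt.mpr hi)) (by
      intro w hw
      rw [← ev_cutn (n := p.1) (fun i hi => if_neg (not_lt.mpr hi)),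
        ev_lt (y := gen (ext p k R)) (n := p.1) (fun i hi => if_pos hi) (lt_cut _ _)]
      apply PG_rel
      exact List.mem_append_left _ (List.mem_map_of_mem hw))
  exact ⟨j, fun i hi => by rw [hj, if_pos hi]⟩

theorem ext_lift (p : Pres) (k : ℕ) (R : List Wd) {M : Type} [Group M] (x : ℕ → M)
    (f : PG p →* M) (hf : ∀ i < p.1, f (gen p i) = x i) (hbig : ∀ i, p.1 + k ≤ i → x i = 1)
    (hR : ∀ w ∈ R, ev x w = 1) :
    ∃ F : PG (ext p k R) →* M, ∀ i, F (gen (ext p k R) i) = x i := by
  apply PG_lift (ext p k R) x hbig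
  intro w hw
  rcases List.mem_append.mp hw with h | h
  · obtain ⟨v, hv, rfl⟩ := List.mem_map.mp h
    rw [ev_lt (y := fun i => f (gen p i)) (n := p.1) (fun i hi => (hf i hi).symm) (lt_cut _ _),
      ← ev_map, ev_gen_cut, PG_rel p hv, map_one]
  · exact hR w h

theorem zm_ext {n : ℕ} [NeZero n] {M : Type} [Group M] {f g : Multiplicative (ZMod n) →* M}
    (h : f (Multiplicative.ofAdd 1) = g (Multiplicative.ofAdd 1)) : f = g := by
  apply MonoidHom.ext
  intro x
  rw [zm_gen x, map_pow, map_pow, h]

/-- Words in the old generators. -/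
theorem ev_ext {p : Pres} {k : ℕ} {R : List Wd} {M : Type} [Group M]
    {F : PG (ext p k R) →* M} {f : PG p →* M}
    (h : ∀ i < p.1, F (gen (ext p k R) i) = f (gen p i)) {w : Wd} (hw : Lt p.1 w) :
    F (ev (gen (ext p k R)) w) = f (ev (gen p) w) := by
  rw [ev_map, ev_map]
  exact ev_lt h hw

/-! ### The direct product with the cyclic group of order five -/

/-- The relators. -/
def T5R (n : ℕ) : List Wd :=
  rp 5 [(n, true)] :: (List.range n).map (fun i => cmw [(n, true)] [(i, true)])

/-- The presentation of the direct product with the cyclic group of order five. -/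
abbrev T5 (p : Pres) : Pres := ext p 1 (T5R p.1)

theorem iso_T5 (p : Pres) : ∃ e : PG (T5 p) ≃* PG p × C5,
    (∀ i < p.1, e (gen (T5 p) i) = (gen p i, 1)) ∧ e (gen (T5 p) p.1) = (1, t5) := by
  obtain ⟨j, hj⟩ := ext_emb p 1 (T5R p.1)
  let x : ℕ → PG p × C5 := fun i => if i < p.1 then (gen p i, 1) else if i = p.1 then (1, t5) else 1
  have hx1 : ∀ i < p.1, x i = (gen p i, 1) := fun i hi => if_pos hi
  have hx2 : x p.1 = (1, t5) := by simp [x]
  have hx3 : ∀ i, p.1 + 1 ≤ i → x i = 1 := by
    intro i hi
    have h1 : ¬ i < p.1 := by omega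
    have h2 : ¬ i = p.1 := by omega
    simp [x, h1, h2]
  obtain ⟨F, hF⟩ := ext_lift p 1 (T5R p.1) x (MonoidHom.inl _ _)
    (fun i hi => by rw [hx1 i hi]; rfl) hx3 (by
      intro w hw
      rcases List.mem_cons.mp hw with rfl | hw
      · rw [ev_rp, ev_true, hx2, tp]
      · obtain ⟨i, hi, rfl⟩ := List.mem_map.mp hw
        rw [ev_cmw, ev_true, ev_true, hx2]
        exact tc _)
  have ht : (gen (T5 p) p.1) ^ 5 = 1 := by
    have := PG_rel (T5 p) (w := rp 5 [(p.1, true)]) (List.mem_append_right _ List.mem_cons_self)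
    rwa [ev_rp, ev_true] at this
  have hc : ∀ i < p.1, Commute (gen (T5 p) p.1) (gen (T5 p) i) := by
    intro i hi
    have := PG_rel (T5 p) (w := cmw [(p.1, true)] [(i, true)])
      (List.mem_append_right _ (List.mem_cons_of_mem _
        (List.mem_map_of_mem (List.mem_range.mpr hi))))
    rwa [ev_cmw, ev_true, ev_true] at this
  have hc' : ∀ g, gen (T5 p) p.1 * j g * (gen (T5 p) p.1)⁻¹ = j g := by
    have : (MulAut.conj (gen (T5 p) p.1)).toMonoidHom.comp j = j := by
      apply PG_ext
      intro i
      change gen (T5 p) p.1 * j (gen p i) * (gen (T5 p) p.1)⁻¹ = j (gen p i)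
      by_cases hi : i < p.1
      · rw [hj i hi]
        change gen (T5 p) p.1 * gen (T5 p) i * _ = gen (T5 p) i
        rw [(hc i hi).eq, mul_inv_cancel_right]
      · rw [gen_big p (not_lt.mp hi), map_one]; group
    intro g
    exact DFunLike.congr_fun this g
  let c : C5 →* PG (T5 p) := zmHom (gen (T5 p) p.1) ht
  have hcc : c t5 = gen (T5 p) p.1 := zmHom_one _ _
  let F' : PG p × C5 →* PG (T5 p) := MonoidHom.noncommCoprod j c (by
    intro g y
    have h1 : Commute (j g) (gen (T5 p) p.1) := by
      have := hc' g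
      rw [mul_inv_eq_iff_eq_mul] at this
      exact this.symm
    rw [zm_gen y, map_pow]
    have h2 : c (Multiplicative.ofAdd 1) = gen (T5 p) p.1 := hcc
    rw [h2]
    exact h1.pow_right _)
  have h1 : F'.comp F = MonoidHom.id _ := by
    apply PG_ext
    intro i
    simp only [MonoidHom.comp_apply, MonoidHom.id_apply]
    have hFi := hF i
    change F' (F (gen (T5 p) i)) = gen (T5 p) i
    change F (gen (T5 p) i) = x i at hFi
    rw [hFi]
    rcases lt_trichotomy i p.1 with hi | hi | hi
    · rw [hx1 i hi, MonoidHom.noncommCoprod_apply, map_one, mul_one, hj i hi]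
    · subst hi
      rw [hx2, MonoidHom.noncommCoprod_apply, map_one, one_mul, hcc]
    · rw [hx3 i hi, map_one, gen_big (T5 p) (show (T5 p).1 ≤ i from hi)]
  have h2 : F.comp F' = MonoidHom.id _ := by
    have hF1 : ∀ g, F (j g) = (g, 1) := by
      have : F.comp j = MonoidHom.inl _ _ := by
        apply PG_ext
        intro i
        simp only [MonoidHom.comp_apply]
        by_cases hi : i < p.1
        · rw [hj i hi, hF i, hx1 i hi]; rfl
        · rw [gen_big p (not_lt.mp hi), map_one, map_one, map_one]
      intro g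
      exact DFunLike.congr_fun this g
    have hF2 : ∀ y, F (c y) = (1, y) := by
      have : F.comp c = MonoidHom.inr _ _ := by
        apply zm_ext
        have h3 : c (Multiplicative.ofAdd 1) = gen (T5 p) p.1 := hcc
        rw [MonoidHom.comp_apply, h3]
        have := hF p.1
        change F (gen (T5 p) p.1) = _ at this
        rw [this, hx2]; rfl
      intro y
      exact DFunLike.congr_fun this y
    apply MonoidHom.ext
    rintro ⟨g, y⟩
    rw [MonoidHom.comp_apply, MonoidHom.noncommCoprod_apply, map_mul, hF1, hF2]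
    simp
  refine ⟨MonoidHom.toMulEquiv F F' h1 h2, fun i hi => ?_, ?_⟩
  · exact (hF i).trans (hx1 i hi)
  · exact (hF p.1).trans hx2

/-! ### The free product with the cyclic group of order four -/

/-- The presentation of the free product with the cyclic group of order four. -/
abbrev F4 (p : Pres) : Pres := ext p 1 [rp 4 [(p.1, true)]]

theorem iso_F4 (p : Pres) : ∃ e : PG (F4 p) ≃* FPr (PG p) C4,
    (∀ i < p.1, e (gen (F4 p) i) = ia (gen p i)) ∧ e (gen (F4 p) p.1) = ib b4 := by
  obtain ⟨j, hj⟩ := ext_emb p 1 [rp 4 [(p.1, true)]]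
  let x : ℕ → FPr (PG p) C4 := fun i => if i < p.1 then ia (gen p i) else
    if i = p.1 then ib b4 else 1
  have hx1 : ∀ i < p.1, x i = ia (gen p i) := fun i hi => if_pos hi
  have hx2 : x p.1 = ib b4 := by simp [x]
  have hx3 : ∀ i, p.1 + 1 ≤ i → x i = 1 := by
    intro i hi
    have h1 : ¬ i < p.1 := by omega
    have h2 : ¬ i = p.1 := by omega
    simp [x, h1, h2]
  obtain ⟨F, hF⟩ := ext_lift p 1 [rp 4 [(p.1, true)]] x ia
    (fun i hi => by rw [hx1 i hi]) hx3 (by
      intro w hw
      rw [List.mem_singleton.mp hw, ev_rp, ev_true, hx2, ← map_pow, b4_pow, map_one])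
  have ht : (gen (F4 p) p.1) ^ 4 = 1 := by
    have := PG_rel (F4 p) (w := rp 4 [(p.1, true)]) (List.mem_append_right _ List.mem_cons_self)
    rwa [ev_rp, ev_true] at this
  let c : C4 →* PG (F4 p) := zmHom (gen (F4 p) p.1) ht
  have hcc : c b4 = gen (F4 p) p.1 := zmHom_one _ _
  let F' : FPr (PG p) C4 →* PG (F4 p) := fpl j c
  have h1 : F'.comp F = MonoidHom.id _ := by
    apply PG_ext
    intro i
    have hFi := hF i
    change F' (F (gen (F4 p) i)) = gen (F4 p) i
    change F (gen (F4 p) i) = x i at hFi
    rw [hFi]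
    rcases lt_trichotomy i p.1 with hi | hi | hi
    · rw [hx1 i hi]
      simp only [F', fpl_ia]
      rw [hj i hi]
    · subst hi
      rw [hx2]
      simp only [F', fpl_ib]
      exact hcc
    · rw [hx3 i hi, map_one, gen_big (F4 p) (show (F4 p).1 ≤ i from hi)]
  have h2 : F.comp F' = MonoidHom.id _ := by
    apply fp_ext
    · intro a
      simp only [MonoidHom.comp_apply, F', fpl_ia, MonoidHom.id_apply]
      have : F.comp j = ia := by
        apply PG_ext
        intro i
        simp only [MonoidHom.comp_apply]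
        by_cases hi : i < p.1
        · rw [hj i hi, hF i, hx1 i hi]
        · rw [gen_big p (not_lt.mp hi), map_one, map_one, map_one]
      exact DFunLike.congr_fun this a
    · intro a
      simp only [MonoidHom.comp_apply, F', fpl_ib, MonoidHom.id_apply]
      have : F.comp c = ib := by
        apply zm_ext
        have h3 : c (Multiplicative.ofAdd 1) = gen (F4 p) p.1 := hcc
        rw [MonoidHom.comp_apply, h3]
        exact (hF p.1).trans hx2
      exact DFunLike.congr_fun this a
  refine ⟨MonoidHom.toMulEquiv F F' h1 h2, fun i hi => ?_, ?_⟩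
  · exact (hF i).trans (hx1 i hi)
  · exact (hF p.1).trans hx2

/-! ### The free product with a free group -/

/-- The presentation of the free product with a free group of rank `r`. -/
abbrev FZ (p : Pres) (r : ℕ) : Pres := ext p r []

theorem iso_FZ (p : Pres) (r : ℕ) : ∃ e : PG (FZ p r) ≃* FPr (PG p) (FreeGroup (Fin r)),
    (∀ i < p.1, e (gen (FZ p r) i) = ia (gen p i)) ∧
      ∀ i : Fin r, e (gen (FZ p r) (p.1 + i)) = ib (FreeGroup.of i) := by
  obtain ⟨j, hj⟩ := ext_emb p r []
  let x : ℕ → FPr (PG p) (FreeGroup (Fin r)) := fun i => if i < p.1 then ia (gen p i) else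
    if h : i - p.1 < r then ib (FreeGroup.of ⟨i - p.1, h⟩) else 1
  have hx1 : ∀ i < p.1, x i = ia (gen p i) := fun i hi => if_pos hi
  have hx2 : ∀ i : Fin r, x (p.1 + i) = ib (FreeGroup.of i) := by
    intro i
    have h1 : ¬ p.1 + (i : ℕ) < p.1 := by omega
    have h2 : p.1 + (i : ℕ) - p.1 < r := by have := i.2; omega
    simp only [x]
    rw [if_neg h1, dif_pos h2]
    congr 2
    ext
    simp
  have hx3 : ∀ i, p.1 + r ≤ i → x i = 1 := by
    intro i hi
    have h1 : ¬ i < p.1 := by omega
    have h2 : ¬ i - p.1 < r := by omega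
    simp [x, h1, h2]
  obtain ⟨F, hF⟩ := ext_lift p r [] x ia (fun i hi => by rw [hx1 i hi]) hx3
    (by intro w hw; simp at hw)
  let c : FreeGroup (Fin r) →* PG (FZ p r) := FreeGroup.lift (fun i => gen (FZ p r) (p.1 + i))
  let F' : FPr (PG p) (FreeGroup (Fin r)) →* PG (FZ p r) := fpl j c
  have h1 : F'.comp F = MonoidHom.id _ := by
    apply PG_ext
    intro i
    have hFi := hF i
    change F' (F (gen (FZ p r) i)) = gen (FZ p r) i
    change F (gen (FZ p r) i) = x i at hFi
    rw [hFi]
    by_cases hi : i < p.1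
    · rw [hx1 i hi]
      simp only [F', fpl_ia]
      rw [hj i hi]
    · by_cases hi2 : i < p.1 + r
      · have h3 : i = p.1 + ((⟨i - p.1, by omega⟩ : Fin r) : ℕ) := by simp; omega
        conv_lhs => rw [h3]
        rw [hx2]
        simp only [F', fpl_ib, c, FreeGroup.lift_apply_of]
        rw [← h3]
      · rw [hx3 i (by omega), map_one, gen_big (FZ p r) (show (FZ p r).1 ≤ i from not_lt.mp hi2)]
  have h2 : F.comp F' = MonoidHom.id _ := by
    apply fp_ext
    · intro a
      simp only [MonoidHom.comp_apply, F', fpl_ia, MonoidHom.id_apply]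
      have : F.comp j = ia := by
        apply PG_ext
        intro i
        simp only [MonoidHom.comp_apply]
        by_cases hi : i < p.1
        · rw [hj i hi, hF i, hx1 i hi]
        · rw [gen_big p (not_lt.mp hi), map_one, map_one, map_one]
      exact DFunLike.congr_fun this a
    · intro a
      simp only [MonoidHom.comp_apply, F', fpl_ib, MonoidHom.id_apply]
      have : F.comp c = ib := by
        apply FreeGroup.ext_hom
        intro i
        simp only [MonoidHom.comp_apply, c, FreeGroup.lift_apply_of]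
        exact (hF _).trans (hx2 i)
      exact DFunLike.congr_fun this a
  refine ⟨MonoidHom.toMulEquiv F F' h1 h2, fun i hi => ?_, fun i => ?_⟩
  · exact (hF i).trans (hx1 i hi)
  · exact (hF _).trans (hx2 i)

/-! ### The amalgam with the modular group -/

/-- The relators. -/
def GDR (n : ℕ) (w : Wd) : List Wd := [rp 2 [(n, true)], rp 3 ((n, true) :: cut n w)]

/-- The presentation of the amalgam with the modular group along the element given by `w`. -/
abbrev GD (p : Pres) (w : Wd) : Pres := ext p 1 (GDR p.1 w)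

theorem iso_GD (p : Pres) (w : Wd) : ∃ e : PG (GD p w) ≃* Am (PG p) (ev (gen p) w),
    (∀ i < p.1, e (gen (GD p w) i) = ik _ (gen p i)) ∧ e (gen (GD p w) p.1) = ih _ (ia a2) := by
  obtain ⟨j, hj⟩ := ext_emb p 1 (GDR p.1 w)
  set s := ev (gen p) w with hs
  let x : ℕ → Am (PG p) s := fun i => if i < p.1 then ik _ (gen p i) else
    if i = p.1 then ih _ (ia a2) else 1
  have hx1 : ∀ i < p.1, x i = ik _ (gen p i) := fun i hi => if_pos hi
  have hx2 : x p.1 = ih _ (ia a2) := by simp [x]
  have hx3 : ∀ i, p.1 + 1 ≤ i → x i = 1 := by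
    intro i hi
    have h1 : ¬ i < p.1 := by omega
    have h2 : ¬ i = p.1 := by omega
    simp [x, h1, h2]
  have hxw : ev x (cut p.1 w) = ik s s := by
    rw [ev_lt (y := fun i => ik s (gen p i)) (n := p.1) hx1 (lt_cut _ _), ← ev_map, ev_gen_cut]
  have ha2 : (ia a2 : H23) * ia a2 = 1 := by rw [← map_mul, ← pow_two, a2_pow, map_one]
  obtain ⟨F, hF⟩ := ext_lift p 1 (GDR p.1 w) x (ik s)
    (fun i hi => by rw [hx1 i hi]) hx3 (by
      intro v hv
      simp only [GDR, List.mem_cons, List.not_mem_nil, or_false] at hv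
      rcases hv with rfl | rfl
      · rw [ev_rp, ev_true, hx2, pow_two, ← map_mul, ha2, map_one]
      · rw [ev_rp, ev_cons, ev_true, hx2, hxw, ik_s, ← map_mul, z23, ← mul_assoc, ha2, one_mul,
          ← map_pow, ← map_pow, b3_pow, map_one, map_one])
  set A := gen (GD p w) p.1 with hA
  have hA2 : A ^ 2 = 1 := by
    have := PG_rel (GD p w) (w := rp 2 [(p.1, true)]) (List.mem_append_right _ (by simp [GDR]))
    rwa [ev_rp, ev_true] at this
  have hjs : ev (gen (GD p w)) (cut p.1 w) = j s := by
    have h0 : j s = j (ev (gen p) (cut p.1 w)) := by rw [ev_gen_cut]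
    rw [h0, ev_map]
    symm
    exact ev_lt hj (lt_cut _ _)
  have hA3 : (A * j s) ^ 3 = 1 := by
    have := PG_rel (GD p w) (w := rp 3 ((p.1, true) :: cut p.1 w))
      (List.mem_append_right _ (by simp [GDR]))
    rwa [ev_rp, ev_cons, ev_true, hjs] at this
  let c : H23 →* PG (GD p w) := fpl (zmHom A hA2) (zmHom (A * j s) hA3)
  have hc1 : c (ia a2) = A := by
    simp only [c, fpl_ia]; exact zmHom_one _ _
  have hc2 : c (ib b3) = A * j s := by
    simp only [c, fpl_ib]; exact zmHom_one _ _
  let F' : Am (PG p) s →* PG (GD p w) := aml s j c (by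
    rw [z23, map_mul, hc1, hc2, ← mul_assoc, ← pow_two, hA2, one_mul])
  have h1 : F'.comp F = MonoidHom.id _ := by
    apply PG_ext
    intro i
    have hFi := hF i
    change F' (F (gen (GD p w) i)) = gen (GD p w) i
    change F (gen (GD p w) i) = x i at hFi
    rw [hFi]
    rcases lt_trichotomy i p.1 with hi | hi | hi
    · rw [hx1 i hi]
      simp only [F', aml_ik]
      rw [hj i hi]
    · subst hi
      rw [hx2]
      simp only [F', aml_ih]
      exact hc1
    · rw [hx3 i hi, map_one, gen_big (GD p w) (show (GD p w).1 ≤ i from hi)]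
  have hFj : F.comp j = ik s := by
    apply PG_ext
    intro i
    simp only [MonoidHom.comp_apply]
    by_cases hi : i < p.1
    · rw [hj i hi, hF i, hx1 i hi]
    · rw [gen_big p (not_lt.mp hi), map_one, map_one, map_one]
  have hFA : F A = ih s (ia a2) := (hF p.1).trans hx2
  have h2 : F.comp F' = MonoidHom.id _ := by
    apply am_ext
    · intro a
      simp only [MonoidHom.comp_apply, F', aml_ik, MonoidHom.id_apply]
      exact DFunLike.congr_fun hFj a
    · intro a
      simp only [MonoidHom.comp_apply, F', aml_ih, MonoidHom.id_apply]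
      have : F.comp c = ih s := by
        apply fp_ext
        · intro b
          have : (F.comp c).comp ia = (ih s).comp ia := by
            apply zm_ext
            change F (c (ia a2)) = ih s (ia a2)
            rw [hc1, hFA]
          exact DFunLike.congr_fun this b
        · intro b
          have : (F.comp c).comp ib = (ih s).comp ib := by
            apply zm_ext
            change F (c (ib b3)) = ih s (ib b3)
            rw [hc2, map_mul, hFA]
            have h3 : F (j s) = ik s s := DFunLike.congr_fun hFj s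
            rw [h3, ik_s, ← map_mul, z23, ← mul_assoc, ha2, one_mul]
          exact DFunLike.congr_fun this b
      exact DFunLike.congr_fun this a
  refine ⟨MonoidHom.toMulEquiv F F' h1 h2, fun i hi => ?_, ?_⟩
  · exact (hF i).trans (hx1 i hi)
  · exact hFA

end Pool.Agent.H361.AM
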