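import Mathlib
import Pool.Agent.H361.AM.Pres

set_option autoImplicit false

/-!
# The reductions
-/

namespace Pool.Agent.H361.AM

open Pool.Agent.Q223.IS

theorem Cls.iso {G H : Type} [Group G] [Group H] (e : G ≃* H) (h : Cls H) : Cls G := by
  intro z hz
  have : e z = 1 := by
    apply h
    intro g
    have := congrArg e (hz (e.symm g))
    rwa [map_mul, map_mul, MulEquiv.apply_symm_apply] at this
  exact (MulEquiv.map_eq_one_iff e).mp this

theorem InfOrd.of_map {G H : Type} [Group G] [Group H] (e : G →* H) {x : G} (h : InfOrd (e x)) :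
    InfOrd x := by
  intro n hn hx
  exact h n hn (by rw [← map_pow, hx, map_one])

theorem InfOrd.map {G H : Type} [Group G] [Group H] {e : G →* H} (he : Function.Injective e)
    {x : G} (h : InfOrd x) : InfOrd (e x) := by
  intro n hn hx
  rw [← map_pow] at hx
  exact h n hn (he (hx.trans (map_one _).symm))

/-- One layer of the construction. -/
abbrev Lay (p : Pres) (w : Wd) : Pres := GD (T5 p) w

theorem T5_ev (p : Pres) (e : PG (T5 p) ≃* PG p × C5)
    (he : ∀ i < p.1, e (gen (T5 p) i) = (gen p i, 1)) {v : Wd} (hv : Lt p.1 v) :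
    e (ev (gen (T5 p)) v) = (ev (gen p) v, 1) :=
  ev_ext (F := e.toMonoidHom) (f := MonoidHom.inl (PG p) C5) (fun i hi => he i hi) hv

theorem iso_Lay (p : Pres) (w : Wd) (hw : Lt p.1 w) :
    ∃ e : PG (Lay p w) ≃* Am (PG p × C5) (ev (gen p) w, 1),
      ∀ v, Lt p.1 v → e (ev (gen (Lay p w)) v) = ik _ (ev (gen p) v, 1) := by
  obtain ⟨e1, h1, _⟩ := iso_T5 p
  obtain ⟨e2, h2, _⟩ := iso_GD (T5 p) w
  obtain ⟨e3, h3, _⟩ := am_map e1 (T5_ev p e1 h1 hw)
  refine ⟨e2.trans e3, fun v hv => ?_⟩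
  have h4 : e2 (ev (gen (Lay p w)) v) = ik _ (ev (gen (T5 p)) v) :=
    ev_ext (F := e2.toMonoidHom) (f := ik _) (fun i hi => h2 i hi)
      (hv.mono (show p.1 ≤ p.1 + 1 by omega))
  rw [MulEquiv.trans_apply, h4, h3, T5_ev p e1 h1 hv]

theorem lay_rev {p q : Pres} {w v : Wd} (hw : Lt p.1 w) (hv : Lt q.1 v) (hp : Cls (PG p))
    (hq : Cls (PG q)) (iw : InfOrd (ev (gen p) w)) (iv : InfOrd (ev (gen q) v))
    (Φ : PG (Lay p w) ≃* PG (Lay q v)) :
    ∃ e : PG p ≃* PG q, CI (e (ev (gen p) w)) (ev (gen q) v) ∧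
      ∀ w' v', Lt p.1 w' → Lt q.1 v' → ev (gen q) v' ≠ 1 →
        CI (Φ (ev (gen (Lay p w)) w')) (ev (gen (Lay q v)) v') →
        CI (e (ev (gen p) w')) (ev (gen q) v') := by
  obtain ⟨e1, h1⟩ := iso_Lay p w hw
  obtain ⟨e2, h2⟩ := iso_Lay q v hv
  obtain ⟨e, he1, he2⟩ := peel hp hq iw iv ((e1.symm.trans Φ).trans e2)
  refine ⟨e, he1, fun w' v' hw' hv' hne hC => he2 _ _ hne ?_⟩
  have h3 := hC.map e2.toMonoidHom
  change CI (e2 (Φ _)) (e2 _) at h3
  rw [h2 _ hv'] at h3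
  have h4 : e1.symm (ik _ (ev (gen p) w', 1)) = ev (gen (Lay p w)) w' := by
    rw [← h1 _ hw', MulEquiv.symm_apply_apply]
  rw [MulEquiv.trans_apply, MulEquiv.trans_apply, h4]
  exact h3

theorem lay_fwd {p q : Pres} {w v : Wd} (hw : Lt p.1 w) (hv : Lt q.1 v) (e : PG p ≃* PG q)
    (h : e (ev (gen p) w) = ev (gen q) v) :
    ∃ Φ : PG (Lay p w) ≃* PG (Lay q v), ∀ w' v', Lt p.1 w' → Lt q.1 v' →
      e (ev (gen p) w') = ev (gen q) v' →
        Φ (ev (gen (Lay p w)) w') = ev (gen (Lay q v)) v' := by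
  obtain ⟨e1, h1⟩ := iso_Lay p w hw
  obtain ⟨e2, h2⟩ := iso_Lay q v hv
  obtain ⟨F, hF, _⟩ := am_map (s := ((ev (gen p) w, 1) : PG p × C5))
    (s' := ((ev (gen q) v, 1) : PG q × C5)) (MulEquiv.prodCongr e (MulEquiv.refl C5)) (by
      change (e (ev (gen p) w), (1 : C5)) = _
      rw [h])
  refine ⟨(e1.trans F).trans e2.symm, fun w' v' hw' hv' h' => ?_⟩
  rw [MulEquiv.trans_apply, MulEquiv.trans_apply, h1 _ hw', hF, MulEquiv.symm_apply_eq, h2 _ hv']
  change ik _ (e (ev (gen p) w'), (1 : C5)) = _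
  rw [h']

theorem lay_cls {p : Pres} {w : Wd} (hw : Lt p.1 w) (iw : InfOrd (ev (gen p) w)) :
    Cls (PG (Lay p w)) := by
  obtain ⟨e, _⟩ := iso_Lay p w hw
  exact Cls.iso e (am_cls iw.prod)

theorem lay_inf {p : Pres} {w : Wd} (hw : Lt p.1 w) (iw : InfOrd (ev (gen p) w)) {v : Wd}
    (hv : Lt p.1 v) (iv : InfOrd (ev (gen p) v)) : InfOrd (ev (gen (Lay p w)) v) := by
  obtain ⟨e, he⟩ := iso_Lay p w hw
  apply InfOrd.of_map e.toMonoidHom
  change InfOrd (e _)
  rw [he v hv]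
  exact InfOrd.map (ik_inj iw.prod) iv.prod

/-- The iterated construction. -/
def Tow (p : Pres) (ws : List Wd) : Pres := ws.foldl Lay p

theorem tow_rev {ws vs : List Wd} : ∀ {p q : Pres}, Cls (PG p) → Cls (PG q) →
    List.Forall₂ (fun w v => (Lt p.1 w ∧ InfOrd (ev (gen p) w)) ∧
      (Lt q.1 v ∧ InfOrd (ev (gen q) v))) ws vs →
    (PG (Tow p ws) ≃* PG (Tow q vs)) →
    ∃ e : PG p ≃* PG q, List.Forall₂ (fun w v => CI (e (ev (gen p) w)) (ev (gen q) v)) ws vs := by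
  induction ws generalizing vs with
  | nil =>
    intro p q _ _ h Φ
    cases h
    exact ⟨Φ, List.Forall₂.nil⟩
  | cons w ws ih =>
    intro p q hp hq h Φ
    rcases h with _ | ⟨⟨⟨h1, h2⟩, ⟨h3, h4⟩⟩, h⟩
    rename_i v vs
    have hl : p.1 ≤ (Lay p w).1 := by change p.1 ≤ p.1 + 1 + 1; omega
    have hl' : q.1 ≤ (Lay q v).1 := by change q.1 ≤ q.1 + 1 + 1; omega
    obtain ⟨Φ1, hΦ1⟩ := ih (p := Lay p w) (q := Lay q v) (lay_cls h1 h2) (lay_cls h3 h4)
      (h.imp (fun a b hab => ⟨⟨hab.1.1.mono hl, lay_inf h1 h2 hab.1.1 hab.1.2⟩,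
        ⟨hab.2.1.mono hl', lay_inf h3 h4 hab.2.1 hab.2.2⟩⟩)) Φ
    obtain ⟨e, he1, he2⟩ := lay_rev h1 h3 hp hq h2 h4 Φ1
    refine ⟨e, List.Forall₂.cons he1 ?_⟩
    clear ih Φ
    induction h with
    | nil => exact List.Forall₂.nil
    | cons hab _ ih2 =>
      rcases hΦ1 with _ | ⟨h5, h6⟩
      exact List.Forall₂.cons (he2 _ _ hab.1.1 hab.2.1 hab.2.2.ne_one h5) (ih2 h6)

theorem tow_fwd {ws vs : List Wd} : ∀ {p q : Pres} (e : PG p ≃* PG q),
    List.Forall₂ (fun w v => Lt p.1 w ∧ Lt q.1 v ∧ e (ev (gen p) w) = ev (gen q) v) ws vs →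
    Nonempty (PG (Tow p ws) ≃* PG (Tow q vs)) := by
  induction ws generalizing vs with
  | nil =>
    intro p q e h
    cases h
    exact ⟨e⟩
  | cons w ws ih =>
    intro p q e h
    rcases h with _ | ⟨⟨h1, h2, h3⟩, h⟩
    rename_i v vs
    have hl : p.1 ≤ (Lay p w).1 := by change p.1 ≤ p.1 + 1 + 1; omega
    have hl' : q.1 ≤ (Lay q v).1 := by change q.1 ≤ q.1 + 1 + 1; omega
    obtain ⟨Φ, hΦ⟩ := lay_fwd h1 h2 e h3
    exact ih (vs := vs) (p := Lay p w) (q := Lay q v) Φ (h.imp (fun a b hab => ⟨hab.1.mono hl, hab.2.1.mono hl',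
      hΦ a b hab.1 hab.2.1 hab.2.2⟩))

/-! ### Exact marking -/

/-- The group which carries the marks. -/
abbrev VV (p : Pres) : Pres := F4 (T5 p)

/-- The chiral mark. -/
def mk0 (n : ℕ) : Wd :=
  [(n + 1, true), (n, true), (n + 1, true), (n + 1, true), (n, true), (n, true)]

/-- The mark of an element. -/
def mk (n : ℕ) (u : Wd) : Wd := (n + 1, true) :: (cut n u ++ [(n, true)])

/-- The list of marks. -/
def mks (n : ℕ) (us : List Wd) : List Wd := mk0 n :: mk n [] :: us.map (mk n)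

/-- The construction for exact marking. -/
def EX (p : Pres) (us : List Wd) : Pres := Tow (VV p) (mks p.1 us)

theorem iso_VV (p : Pres) : ∃ e : PG (VV p) ≃* FPr (PG p × C5) C4,
    e (ev (gen (VV p)) (mk0 p.1)) = chi (ib b4) (ia (1, t5)) ∧
    ∀ u, e (ev (gen (VV p)) (mk p.1 u)) = ib b4 * ia (ev (gen p) u, t5) := by
  obtain ⟨e1, h1, h2⟩ := iso_T5 p
  obtain ⟨e2, h3, h4⟩ := iso_F4 (T5 p)
  obtain ⟨e3, h5, h6⟩ := fp_map (B := C4) e1
  have g1 : (e2.trans e3) (gen (VV p) p.1) = ia (1, t5) := by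
    rw [MulEquiv.trans_apply, h3 p.1 (show p.1 < p.1 + 1 by omega), h5, h2]
  have g2 : (e2.trans e3) (gen (VV p) (p.1 + 1)) = ib b4 := by
    rw [MulEquiv.trans_apply]
    have : e2 (gen (VV p) (p.1 + 1)) = ib b4 := h4
    rw [this, h6]
  have g3 : ∀ u, (e2.trans e3) (ev (gen (VV p)) (cut p.1 u)) = ia (ev (gen p) u, 1) := by
    intro u
    rw [MulEquiv.trans_apply]
    have h7 : e2 (ev (gen (VV p)) (cut p.1 u)) = ia (ev (gen (T5 p)) (cut p.1 u)) :=
      ev_ext (F := e2.toMonoidHom) (f := ia) (fun i hi => h3 i hi)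
        ((lt_cut _ _).mono (show p.1 ≤ p.1 + 1 by omega))
    rw [h7, h5, T5_ev p e1 h1 (lt_cut _ _), ev_gen_cut]
  refine ⟨e2.trans e3, ?_, fun u => ?_⟩
  · have : mk0 p.1 = [(p.1 + 1, true)] ++ [(p.1, true)] ++ [(p.1 + 1, true)] ++ [(p.1 + 1, true)] ++
      [(p.1, true)] ++ [(p.1, true)] := rfl
    rw [this]
    simp only [ev_append, ev_true, map_mul, g1, g2, chi]
    group
  · rw [mk, ev_cons, ev_append, ev_true, ev_true, map_mul, map_mul, g1, g2, g3, ← map_mul]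
    simp

theorem mk_lt (n : ℕ) (u : Wd) : Lt (n + 1 + 1) (mk n u) := by
  apply Lt.cons (by simp)
  apply Lt.append ((lt_cut n u).mono (by omega))
  exact Lt.cons (by simp) Lt.nil

theorem mk0_lt (n : ℕ) : Lt (n + 1 + 1) (mk0 n) := by
  intro a ha
  simp only [mk0, List.mem_cons, List.not_mem_nil, or_false] at ha
  rcases ha with rfl | rfl | rfl | rfl | rfl | rfl <;> simp

theorem mks_lt (n : ℕ) (us : List Wd) : ∀ w ∈ mks n us, Lt (n + 1 + 1) w := by
  intro w hw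
  simp only [mks, List.mem_cons, List.mem_map] at hw
  rcases hw with rfl | rfl | ⟨u, _, rfl⟩
  · exact mk0_lt n
  · exact mk_lt n _
  · exact mk_lt n _

theorem mk_inf (p : Pres) (u : Wd) : InfOrd (ev (gen (VV p)) (mk p.1 u)) := by
  obtain ⟨e, _, he⟩ := iso_VV p
  apply InfOrd.of_map e.toMonoidHom
  change InfOrd (e _)
  rw [he]
  intro n hn
  apply fp_inf _ _ hn
  · simpa using tn _
  · simpa using b4_ne

theorem mk0_inf (p : Pres) : InfOrd (ev (gen (VV p)) (mk0 p.1)) := by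
  obtain ⟨e, he, _⟩ := iso_VV p
  apply InfOrd.of_map e.toMonoidHom
  change InfOrd (e _)
  rw [he]
  intro n hn
  apply fp_inf _ _ hn
  · rw [map_chi, ra_ib, ra_ia]
    intro h
    have := congrArg Prod.snd h
    simp only [chi, one_mul, Prod.mk_mul_mk, mul_one] at this
    change t5 * (t5 * t5) = 1 at this
    revert this
    decide
  · rw [map_chi, rb_ib, rb_ia]
    decide

theorem mks_inf (p : Pres) (us : List Wd) : ∀ w ∈ mks p.1 us, InfOrd (ev (gen (VV p)) w) := by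
  intro w hw
  simp only [mks, List.mem_cons, List.mem_map] at hw
  rcases hw with rfl | rfl | ⟨u, _, rfl⟩
  · exact mk0_inf p
  · exact mk_inf p _
  · exact mk_inf p _

theorem VV_cls (p : Pres) : Cls (PG (VV p)) := by
  obtain ⟨e, _⟩ := iso_VV p
  exact Cls.iso e (fp_cls (tn 1) b4_ne)

theorem EX_iff (p q : Pres) (us vs : List Wd) (hl : us.length = vs.length) :
    Nonempty (PG (EX p us) ≃* PG (EX q vs)) ↔
      ∃ e : PG p ≃* PG q, List.Forall₂ (fun u v => e (ev (gen p) u) = ev (gen q) v) us vs := by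
  obtain ⟨ep, hp0, hp⟩ := iso_VV p
  obtain ⟨eq, hq0, hq⟩ := iso_VV q
  have hlm : (mks p.1 us).length = (mks q.1 vs).length := by simp [mks, hl]
  constructor
  · rintro ⟨Φ⟩
    obtain ⟨e, he⟩ := tow_rev (VV_cls p) (VV_cls q) (ws := mks p.1 us) (vs := mks q.1 vs) (by
      rw [List.forall₂_iff_get]
      refine ⟨hlm, fun i h1 h2 => ⟨⟨?_, ?_⟩, ⟨?_, ?_⟩⟩⟩
      · exact mks_lt _ _ _ (List.get_mem _ _)
      · exact mks_inf _ _ _ (List.get_mem _ _)
      · exact mks_lt _ _ _ (List.get_mem _ _)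
      · exact mks_inf _ _ _ (List.get_mem _ _)) Φ
    let Ψ := (ep.symm.trans e).trans eq
    have key : ∀ w v x y, ep (ev (gen (VV p)) w) = x → eq (ev (gen (VV q)) v) = y →
        CI (e (ev (gen (VV p)) w)) (ev (gen (VV q)) v) → CI (Ψ x) y := by
      intro w v x y hx hy h
      rw [← hx, ← hy]
      have := h.map eq.toMonoidHom
      change CI (eq (e _)) (eq _) at this
      change CI (eq (e (ep.symm (ep _)))) _
      rwa [MulEquiv.symm_apply_apply]
    rcases he with _ | ⟨c0, he⟩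
    rcases he with _ | ⟨c1, he⟩
    have e0 : ∀ (p : Pres), ev (gen p) [] = 1 := fun p => ev_nil _
    obtain ⟨f, hf⟩ := exact_core Ψ (key _ _ _ _ hp0 hq0 c0)
      (key _ _ _ _ (by rw [hp, e0]) (by rw [hq, e0]) c1)
    refine ⟨f, ?_⟩
    rw [List.forall₂_map_left_iff, List.forall₂_map_right_iff] at he
    exact he.imp (fun a b hab => hf _ _ (key _ _ _ _ (hp a) (hq b) hab))
  · rintro ⟨e, he⟩
    obtain ⟨F, hF1, hF2⟩ := fp_map (B := C4) (MulEquiv.prodCongr e (MulEquiv.refl C5))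
    have hF1' : ∀ x c, F (ia (x, c)) = ia (e x, c) := fun x c => hF1 (x, c)
    have hm0 : ((ep.trans F).trans eq.symm) (ev (gen (VV p)) (mk0 p.1)) =
        ev (gen (VV q)) (mk0 q.1) := by
      rw [MulEquiv.trans_apply, MulEquiv.trans_apply, hp0, MulEquiv.symm_apply_eq, hq0]
      have := map_chi F.toMonoidHom (ib b4 : FPr (PG p × C5) C4) (ia (1, t5))
      change F _ = chi (F (ib b4)) (F (ia (1, t5))) at this
      rw [this, hF1', hF2, map_one]
    have hm1 : ∀ u v, e (ev (gen p) u) = ev (gen q) v →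
        ((ep.trans F).trans eq.symm) (ev (gen (VV p)) (mk p.1 u)) =
        ev (gen (VV q)) (mk q.1 v) := by
      intro u v h
      rw [MulEquiv.trans_apply, MulEquiv.trans_apply, hp, MulEquiv.symm_apply_eq, hq, map_mul,
        hF1', hF2, h]
    apply tow_fwd ((ep.trans F).trans eq.symm)
    refine List.Forall₂.cons ⟨mk0_lt _, mk0_lt _, hm0⟩ (List.Forall₂.cons
      ⟨mk_lt _ _, mk_lt _ _, hm1 _ _ ?_⟩ ?_)
    · rw [ev_nil, ev_nil, map_one]
    · rw [List.forall₂_map_left_iff, List.forall₂_map_right_iff]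
      exact he.imp (fun a b hab => ⟨mk_lt _ _, mk_lt _ _, hm1 _ _ hab⟩)

end Pool.Agent.H361.AM
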