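import Mathlib
import Pool.Agent.H361.AM.Red

set_option autoImplicit false

/-!
# Conjugates of tuples, and primitive recursiveness
-/

namespace Pool.Agent.H361.AM

open Pool.Agent.Q223.IS

/-- The mark of a conjugate. -/
def bl (n i : ℕ) (u : Wd) : Wd := (n + 1 + i, true) :: (cut n u ++ [(n + 1 + i, false)])

/-- The list of the marks. -/
def mlr (n r : ℕ) (U : List (List Wd)) : List Wd :=
  [(n, true)] :: (List.range r).flatMap (fun i => (U.getD i []).map (bl n i))

/-- The construction. -/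
def MXr (p : Pres) (r : ℕ) (U : List (List Wd)) : Pres := EX (FZ (T5 p) r) (mlr p.1 r U)

theorem iso_MM (p : Pres) (r : ℕ) :
    ∃ e : PG (FZ (T5 p) r) ≃* FPr (PG p × C5) (FreeGroup (Fin r)),
      e (ev (gen (FZ (T5 p) r)) [(p.1, true)]) = ia (1, t5) ∧
      ∀ (i : Fin r) (u : Wd), e (ev (gen (FZ (T5 p) r)) (bl p.1 i u)) =
        ib (FreeGroup.of i) * ia (ev (gen p) u, 1) * (ib (FreeGroup.of i))⁻¹ := by
  obtain ⟨e1, h1, h2⟩ := iso_T5 p
  obtain ⟨e2, h3, h4⟩ := iso_FZ (T5 p) r
  obtain ⟨e3, h5, h6⟩ := fp_map (B := FreeGroup (Fin r)) e1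
  refine ⟨e2.trans e3, ?_, fun i u => ?_⟩
  · rw [ev_true, MulEquiv.trans_apply, h3 p.1 (show p.1 < p.1 + 1 by omega), h5, h2]
  · have g1 : (e2.trans e3) (gen (FZ (T5 p) r) (p.1 + 1 + i)) = ib (FreeGroup.of i) := by
      rw [MulEquiv.trans_apply]
      have : e2 (gen (FZ (T5 p) r) (p.1 + 1 + i)) = ib (FreeGroup.of i) := h4 i
      rw [this, h6]
    have g2 : (e2.trans e3) (ev (gen (FZ (T5 p) r)) (cut p.1 u)) = ia (ev (gen p) u, 1) := by
      rw [MulEquiv.trans_apply]
      have h7 : e2 (ev (gen (FZ (T5 p) r)) (cut p.1 u)) = ia (ev (gen (T5 p)) (cut p.1 u)) :=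
        ev_ext (F := e2.toMonoidHom) (f := ia) (fun i hi => h3 i hi)
          ((lt_cut _ _).mono (show p.1 ≤ p.1 + 1 by omega))
      rw [h7, h5, T5_ev p e1 h1 (lt_cut _ _), ev_gen_cut]
    have g3 : ev (gen (FZ (T5 p) r)) [(p.1 + 1 + (i : ℕ), false)] =
        (gen (FZ (T5 p) r) (p.1 + 1 + i))⁻¹ := by
      have : ([(p.1 + 1 + (i : ℕ), false)] : Wd) = FreeGroup.invRev [(p.1 + 1 + (i : ℕ), true)] :=
        rfl
      rw [this, ev_inv, ev_true]
    rw [bl, ev_cons, ev_append, ev_true, g3, map_mul, map_mul, map_inv, g1, g2, mul_assoc]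

theorem forall₂_append {α β : Type} {R : α → β → Prop} {a b : List α} {c d : List β}
    (h : a.length = c.length) :
    List.Forall₂ R (a ++ b) (c ++ d) ↔ List.Forall₂ R a c ∧ List.Forall₂ R b d := by
  induction a generalizing c with
  | nil =>
    have : c = [] := List.length_eq_zero_iff.mp h.symm
    subst this
    simp
  | cons x a ih =>
    rcases c with _ | ⟨y, c⟩
    · simp at h
    · simp only [List.cons_append, List.forall₂_cons]
      rw [ih (by simpa using h), and_assoc]

theorem forall₂_flatMap {α β : Type} {R : α → β → Prop} {l : List ℕ} {f : ℕ → List α}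
    {g : ℕ → List β} (h : ∀ i ∈ l, (f i).length = (g i).length) :
    List.Forall₂ R (l.flatMap f) (l.flatMap g) ↔ ∀ i ∈ l, List.Forall₂ R (f i) (g i) := by
  induction l with
  | nil => simp
  | cons x l ih =>
    rw [List.flatMap_cons, List.flatMap_cons, forall₂_append (h x List.mem_cons_self),
      ih (fun i hi => h i (List.mem_cons_of_mem _ hi))]
    simp

theorem length_flatMap {α β : Type} {l : List ℕ} {f : ℕ → List α}
    {g : ℕ → List β} (h : ∀ i ∈ l, (f i).length = (g i).length) :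
    (l.flatMap f).length = (l.flatMap g).length := by
  induction l with
  | nil => rfl
  | cons x l ih =>
    rw [List.flatMap_cons, List.flatMap_cons, List.length_append, List.length_append,
      h x List.mem_cons_self, ih (fun i hi => h i (List.mem_cons_of_mem _ hi))]

theorem MXr_iff (p q : Pres) (r : ℕ) (U V : List (List Wd))
    (hs : ∀ i < r, (U.getD i []).length = (V.getD i []).length) :
    Nonempty (PG (MXr p r U) ≃* PG (MXr q r V)) ↔ ∃ e : PG p ≃* PG q, ∀ i < r, ∃ h : PG q,
      List.Forall₂ (fun u v => h * e (ev (gen p) u) * h⁻¹ = ev (gen q) v)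
        (U.getD i []) (V.getD i []) := by
  have hs' : ∀ i ∈ List.range r, ((U.getD i []).map (bl p.1 i)).length =
      ((V.getD i []).map (bl q.1 i)).length := by
    intro i hi
    rw [List.length_map, List.length_map, hs i (List.mem_range.mp hi)]
  have hl : (mlr p.1 r U).length = (mlr q.1 r V).length := by
    rw [mlr, mlr, List.length_cons, List.length_cons, length_flatMap hs']
  rw [MXr, MXr, EX_iff _ _ _ _ hl]
  obtain ⟨ep, hp1, hp2⟩ := iso_MM p r
  obtain ⟨eq, hq1, hq2⟩ := iso_MM q r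
  constructor
  · rintro ⟨E, hE⟩
    rw [mlr, mlr, List.forall₂_cons, forall₂_flatMap hs'] at hE
    obtain ⟨h1, h2⟩ := hE
    let Φ := (ep.symm.trans E).trans eq
    have key : ∀ w v x y, ep (ev (gen (FZ (T5 p) r)) w) = x →
        eq (ev (gen (FZ (T5 q) r)) v) = y →
        E (ev (gen (FZ (T5 p) r)) w) = ev (gen (FZ (T5 q) r)) v → Φ x = y := by
      intro w v x y hx hy h
      rw [← hx, ← hy, ← h]
      change eq (E (ep.symm (ep _))) = _
      rw [MulEquiv.symm_apply_apply]
    obtain ⟨e, he⟩ := mixed_core Φ (key _ _ _ _ hp1 hq1 h1)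
    refine ⟨e, fun i hi => ?_⟩
    obtain ⟨h, hh⟩ := he (FreeGroup.of ⟨i, hi⟩) (FreeGroup.of ⟨i, hi⟩)
    refine ⟨h, ?_⟩
    have h3 := h2 i (List.mem_range.mpr hi)
    rw [List.forall₂_map_left_iff, List.forall₂_map_right_iff] at h3
    exact h3.imp (fun a b hab => hh _ _ (key _ _ _ _ (hp2 ⟨i, hi⟩ a) (hq2 ⟨i, hi⟩ b) hab))
  · rintro ⟨e, he⟩
    have he' : ∀ i : Fin r, ∃ h : PG q,
      List.Forall₂ (fun u v => h * e (ev (gen p) u) * h⁻¹ = ev (gen q) v)
        (U.getD i []) (V.getD i []) := fun i => he i i.2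
    choose h hh using he'
    obtain ⟨Φ, hΦ1, hΦ2⟩ := mixed_conv e h
    refine ⟨(ep.trans Φ).trans eq.symm, ?_⟩
    rw [mlr, mlr, List.forall₂_cons, forall₂_flatMap hs']
    refine ⟨?_, fun i hi => ?_⟩
    · rw [MulEquiv.trans_apply, MulEquiv.trans_apply, hp1, MulEquiv.symm_apply_eq, hq1, hΦ1,
        map_one]
    · rw [List.forall₂_map_left_iff, List.forall₂_map_right_iff]
      have hi' := List.mem_range.mp hi
      refine (hh ⟨i, hi'⟩).imp (fun a b hab => ?_)
      have h1 := hp2 ⟨i, hi'⟩ a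
      have h2 := hq2 ⟨i, hi'⟩ b
      simp only at h1 h2
      rw [MulEquiv.trans_apply, MulEquiv.trans_apply, h1, MulEquiv.symm_apply_eq, h2, map_mul,
        map_mul, map_inv, hΦ1, hΦ2, ← hab]
      have h3 : (ia (h ⟨i, hi'⟩ * e (ev (gen p) a) * (h ⟨i, hi'⟩)⁻¹, (1 : C5)) :
          FPr (PG q × C5) (FreeGroup (Fin r))) = ia (h ⟨i, hi'⟩, 1) *
          ia (e (ev (gen p) a), 1) * (ia (h ⟨i, hi'⟩, 1))⁻¹ := by
        rw [← map_inv, ← map_mul, ← map_mul]
        simp
      rw [h3]
      group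

/-! ### Primitive recursiveness -/

section Prim

variable {α : Type} [Primcodable α]

theorem cut_pr {f : α → ℕ} {g : α → Wd} (hf : Primrec f) (hg : Primrec g) :
    Primrec fun x => cut (f x) (g x) := by
  have h1 : PrimrecRel (fun (a : ℕ × Bool) (b : ℕ) => a.1 < b) :=
    Primrec.nat_lt.comp₂ (Primrec.fst.comp₂ Primrec₂.left) Primrec₂.right
  have h2 := PrimrecRel.listFilter h1
  exact h2.comp hg hf

theorem ext_pr {f : α → Pres} {g : α → ℕ} {h : α → List Wd} (hf : Primrec f) (hg : Primrec g)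
    (hh : Primrec h) : Primrec fun x => ext (f x) (g x) (h x) := by
  refine Primrec.pair (Primrec.nat_add.comp (Primrec.fst.comp hf) hg) ?_
  refine Primrec.list_append.comp ?_ hh
  refine Primrec.list_map (Primrec.snd.comp hf) ?_
  exact (cut_pr (Primrec.fst.comp (hf.comp Primrec.fst)) Primrec.snd).to₂

theorem T5_pr {f : α → Pres} (hf : Primrec f) : Primrec fun x => T5 (f x) := by
  refine ext_pr hf (Primrec.const 1) ?_
  have h1 : Primrec fun x => (f x).1 := Primrec.fst.comp hf
  refine Primrec.list_cons.comp (rp_pr (Primrec.const 5) (lt_pr h1)) ?_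
  refine Primrec.list_map (Primrec.list_range.comp h1) ?_
  exact (cmw_pr (lt_pr (h1.comp Primrec.fst)) (lt_pr Primrec.snd)).to₂

theorem F4_pr {f : α → Pres} (hf : Primrec f) : Primrec fun x => F4 (f x) := by
  refine ext_pr hf (Primrec.const 1) ?_
  have h1 : Primrec fun x => (f x).1 := Primrec.fst.comp hf
  exact Primrec.list_cons.comp (rp_pr (Primrec.const 4) (lt_pr h1)) (Primrec.const [])

theorem FZ_pr {f : α → Pres} {g : α → ℕ} (hf : Primrec f) (hg : Primrec g) :
    Primrec fun x => FZ (f x) (g x) := ext_pr hf hg (Primrec.const [])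

theorem GD_pr {f : α → Pres} {g : α → Wd} (hf : Primrec f) (hg : Primrec g) :
    Primrec fun x => GD (f x) (g x) := by
  refine ext_pr hf (Primrec.const 1) ?_
  have h1 : Primrec fun x => (f x).1 := Primrec.fst.comp hf
  refine Primrec.list_cons.comp (rp_pr (Primrec.const 2) (lt_pr h1)) ?_
  refine Primrec.list_cons.comp (rp_pr (Primrec.const 3) ?_) (Primrec.const [])
  exact Primrec.list_cons.comp (Primrec.pair h1 (Primrec.const true)) (cut_pr h1 hg)

theorem Lay_pr {f : α → Pres} {g : α → Wd} (hf : Primrec f) (hg : Primrec g) :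
    Primrec fun x => Lay (f x) (g x) := GD_pr (T5_pr hf) hg

theorem Tow_pr {f : α → Pres} {g : α → List Wd} (hf : Primrec f) (hg : Primrec g) :
    Primrec fun x => Tow (f x) (g x) := by
  have h : Primrec₂ fun (_ : α) (y : Pres × Wd) => Lay y.1 y.2 :=
    (Lay_pr (Primrec.fst.comp Primrec.snd) (Primrec.snd.comp Primrec.snd)).to₂
  exact Primrec.list_foldl hg hf h

theorem mk_pr {f : α → ℕ} {g : α → Wd} (hf : Primrec f) (hg : Primrec g) :
    Primrec fun x => mk (f x) (g x) :=
  Primrec.list_cons.comp (Primrec.pair (Primrec.succ.comp hf) (Primrec.const true))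
    (Primrec.list_append.comp (cut_pr hf hg) (lt_pr hf))

theorem mk0_pr {f : α → ℕ} (hf : Primrec f) : Primrec fun x => mk0 (f x) := by
  have h1 : Primrec fun x => ((f x + 1, true) : ℕ × Bool) :=
    Primrec.pair (Primrec.succ.comp hf) (Primrec.const true)
  have h2 : Primrec fun x => ((f x, true) : ℕ × Bool) := Primrec.pair hf (Primrec.const true)
  exact Primrec.list_cons.comp h1 (Primrec.list_cons.comp h2 (Primrec.list_cons.comp h1
    (Primrec.list_cons.comp h1 (Primrec.list_cons.comp h2 (Primrec.list_cons.comp h2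
      (Primrec.const []))))))

theorem mks_pr {f : α → ℕ} {g : α → List Wd} (hf : Primrec f) (hg : Primrec g) :
    Primrec fun x => mks (f x) (g x) :=
  Primrec.list_cons.comp (mk0_pr hf) (Primrec.list_cons.comp (mk_pr hf (Primrec.const []))
    (Primrec.list_map hg (mk_pr (hf.comp Primrec.fst) Primrec.snd).to₂))

theorem EX_pr {f : α → Pres} {g : α → List Wd} (hf : Primrec f) (hg : Primrec g) :
    Primrec fun x => EX (f x) (g x) :=
  Tow_pr (F4_pr (T5_pr hf)) (mks_pr (Primrec.fst.comp hf) hg)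

theorem bl_pr {f g : α → ℕ} {h : α → Wd} (hf : Primrec f) (hg : Primrec g) (hh : Primrec h) :
    Primrec fun x => bl (f x) (g x) (h x) := by
  have h1 : Primrec fun x => f x + 1 + g x := Primrec.nat_add.comp (Primrec.succ.comp hf) hg
  exact Primrec.list_cons.comp (Primrec.pair h1 (Primrec.const true))
    (Primrec.list_append.comp (cut_pr hf hh)
      (Primrec.list_cons.comp (Primrec.pair h1 (Primrec.const false)) (Primrec.const [])))

theorem mlr_pr {f g : α → ℕ} {h : α → List (List Wd)} (hf : Primrec f) (hg : Primrec g)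
    (hh : Primrec h) : Primrec fun x => mlr (f x) (g x) (h x) := by
  refine Primrec.list_cons.comp (lt_pr hf) ?_
  refine Primrec.list_flatMap (Primrec.list_range.comp hg) ?_
  refine Primrec.list_map (f := fun y : α × ℕ => (h y.1).getD y.2 [])
    (g := fun (y : α × ℕ) u => bl (f y.1) y.2 u) ?_ ?_
  · exact (Primrec.list_getD []).comp (hh.comp Primrec.fst) Primrec.snd
  · exact (bl_pr (hf.comp (Primrec.fst.comp Primrec.fst)) (Primrec.snd.comp Primrec.fst)
      Primrec.snd).to₂

theorem MXr_pr {f : α → Pres} {g : α → ℕ} {h : α → List (List Wd)} (hf : Primrec f)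
    (hg : Primrec g) (hh : Primrec h) : Primrec fun x => MXr (f x) (g x) (h x) :=
  EX_pr (FZ_pr (T5_pr hf) hg) (mlr_pr (Primrec.fst.comp hf) hg hh)

end Prim

end Pool.Agent.H361.AM
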