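import Mathlib
import Pool.Graph.R_pool_sql_team_seeded_3997aac3.Q223.IS.Code

set_option autoImplicit false

/-!
# Definitions for the statements

Finite presentations are coded by `Pres = ℕ × List Wd`, `Wd = List (ℕ × Bool)`; `PG p` is the group
of the code `p = (n, R)`: generators `gen p 0, ..., gen p (n - 1)` and the relators in `R`, where
`(i, true)` is the letter `gen p i`, `(i, false)` its inverse, and letters with `i ≥ n` are deleted.
`ev (gen p) w` is the value of the word `w` in `PG p`.
-/

namespace Pool.Agent.H361.Stm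

open Pool.Agent.Q223.IS

/-- Codes of finite presentations. -/
abbrev Pres : Type := ℕ × List Wd

/-- The modular group `ℤ/2 * ℤ/3`. -/
def Modular : Type := Monoid.Coprod (Multiplicative (ZMod 2)) (Multiplicative (ZMod 3))

instance : Group Modular :=
  inferInstanceAs (Group (Monoid.Coprod (Multiplicative (ZMod 2)) (Multiplicative (ZMod 3))))

/-- The product `a b` of the generators `a` of `ℤ/2` and `b` of `ℤ/3` in the modular group. -/
def parab : Modular :=
  (Monoid.Coprod.inl (Multiplicative.ofAdd 1) * Monoid.Coprod.inr (Multiplicative.ofAdd 1) :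
    Monoid.Coprod (Multiplicative (ZMod 2)) (Multiplicative (ZMod 3)))

/-- The amalgamated product of `G` and the modular group along the cyclic subgroups generated by
`s` and by the product `a b` of the two generators, that is, the group
`⟨G, a, b | a ^ 2 = b ^ 3 = 1, s = a b⟩`. -/
abbrev Amalgam (G : Type) [Group G] (s : G) : Type :=
  Monoid.Coprod G Modular ⧸
    Subgroup.normalClosure {(Monoid.Coprod.inl s * (Monoid.Coprod.inr parab)⁻¹ :
      Monoid.Coprod G Modular)}

/-- The class `𝒢` of groups is closed under isomorphism, direct products with `ℤ/5`, free products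
with `ℤ/4` and with `ℤ`, and amalgamated products with the modular group along an element of
infinite order. -/
structure Closed (𝒢 : (G : Type) → [Group G] → Prop) : Prop where
  iso : ∀ (G H : Type) [Group G] [Group H], Nonempty (G ≃* H) → 𝒢 G → 𝒢 H
  prod : ∀ (G : Type) [Group G], 𝒢 G → 𝒢 (G × Multiplicative (ZMod 5))
  free4 : ∀ (G : Type) [Group G], 𝒢 G → 𝒢 (Monoid.Coprod G (Multiplicative (ZMod 4)))
  freeZ : ∀ (G : Type) [Group G], 𝒢 G → 𝒢 (Monoid.Coprod G (Multiplicative ℤ))
  amalgam : ∀ (G : Type) [Group G] (s : G), (∀ n : ℕ, 0 < n → s ^ n ≠ 1) → 𝒢 G →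
    𝒢 (Amalgam G s)

/-- The isomorphism problem is solvable in the class `𝒢`: a partial recursive function, defined on
all pairs of presentations of groups of `𝒢`, decides there whether the groups are isomorphic. -/
def IsoSolvable (𝒢 : (G : Type) → [Group G] → Prop) : Prop :=
  ∃ f : Pres × Pres →. Bool, Partrec f ∧ ∀ p q : Pres, 𝒢 (PG p) → 𝒢 (PG q) →
    ∃ b ∈ f (p, q), (b = true ↔ Nonempty (PG p ≃* PG q))

/-- Some isomorphism maps each tuple of the list `U` of tuples of elements of `PG p` to a conjugate
of the corresponding tuple of the list `V`, where the conjugating element may depend on the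
tuple. -/
def Mixed (p : Pres) (U : List (List Wd)) (q : Pres) (V : List (List Wd)) : Prop :=
  ∃ e : PG p ≃* PG q, List.Forall₂ (fun A B => ∃ h : PG q,
    List.Forall₂ (fun u v => h * e (ev (gen p) u) * h⁻¹ = ev (gen q) v) A B) U V

/-- The uniform mixed Whitehead problem is solvable in the class `𝒢`. -/
def MixedSolvable (𝒢 : (G : Type) → [Group G] → Prop) : Prop :=
  ∃ f : (Pres × List (List Wd)) × (Pres × List (List Wd)) →. Bool, Partrec f ∧
    ∀ (p : Pres) (U : List (List Wd)) (q : Pres) (V : List (List Wd)), 𝒢 (PG p) → 𝒢 (PG q) →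
      ∃ b ∈ f ((p, U), (q, V)), (b = true ↔ Mixed p U q V)

/-- The uniform word problem is solvable in the class `𝒢`. -/
def WordSolvable (𝒢 : (G : Type) → [Group G] → Prop) : Prop :=
  ∃ f : Pres × Wd →. Bool, Partrec f ∧ ∀ (p : Pres) (w : Wd), 𝒢 (PG p) →
    ∃ b ∈ f (p, w), (b = true ↔ ev (gen p) w = 1)

/-- The uniform simultaneous conjugacy problem (for tuples of elements) is solvable in the class
`𝒢`. -/
def ConjSolvable (𝒢 : (G : Type) → [Group G] → Prop) : Prop :=
  ∃ f : Pres × List Wd × List Wd →. Bool, Partrec f ∧ ∀ (p : Pres) (us vs : List Wd), 𝒢 (PG p) →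
    ∃ b ∈ f (p, us, vs), (b = true ↔ ∃ h : PG p,
      List.Forall₂ (fun u v => h * ev (gen p) u * h⁻¹ = ev (gen p) v) us vs)

end Pool.Agent.H361.Stm
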